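import Pool.Agent.W_1b8d5d_h48.StepT
import Pool.Agent.W_1b8d5d_p.VMean

/-!
# Track P: lucky lanes of one direction, seen from another direction (helper14)

If `J ≥ 4 / p` disjoint lanes of the frame `d` start at the row `n` at places which are cheap for the
direction `d'`, each lucky by `Y` with probability `≥ p`, then `3 / 4 Y'` is at most the cost of the
access, `Y'` the luck in the frame `d'`.
-/

namespace Pool.Agent.W_1b8d5d_h14

open MeasureTheory Finset
open Pool.Agent.W_1b8d5d_h85 (V nm dir Edge Env grid ke wedges cost Bd sh rf)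
open Pool.Agent.W_1b8d5d_p
open Pool.Agent.W_1b8d5d_h48

noncomputable section

variable {F : Fm} {κ : ℝ} {d d' : Dr} {sl b Y p : ℝ} {M : ℕ} {k : ℤ} {E : Set Env} {D : Finset Edge}

/-- Bounded measurable functions are integrable. -/
theorem bint14 {f : Env → ℝ} (hm : Measurable f) {B : ℝ} (hB : ∀ η, |f η| ≤ B) : Integrable f (law F) :=
  Integrable.of_bound hm.aestronglyMeasurable B (Filter.Eventually.of_forall fun η => by
    rw [Real.norm_eq_abs]
    exact hB η)

/-- The second moment of a sum of pairwise independent indicators. -/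
theorem sum_sq14 {J : ℕ} {G : ℕ → Env → ℝ} {q : ℝ} (hm : ∀ j, Measurable (G j)) (h0 : ∀ j η, 0 ≤ G j η)
    (h1 : ∀ j η, G j η ≤ 1) (hq : ∀ j, ∫ η, G j η ∂(law F) = q)
    (hij : ∀ i ∈ range J, ∀ j ∈ range J, i ≠ j → ∫ η, G i η * G j η ∂(law F) = q * q) :
    ∫ η, (∑ j ∈ range J, G j η) ^ 2 ∂(law F) ≤ J * q + (J * q) ^ 2 := by
  have hb : ∀ j η, |G j η| ≤ 1 := fun j η => by rw [abs_of_nonneg (h0 j η)]; exact h1 j η
  have hG : ∀ j, Integrable (G j) (law F) := fun j => bint14 (hm j) (hb j)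
  have hGG : ∀ i j, Integrable (fun η => G i η * G j η) (law F) := fun i j =>
    bint14 ((hm i).mul (hm j)) (B := 1) fun η => by
      rw [abs_mul]
      exact mul_le_one₀ (hb i η) (abs_nonneg _) (hb j η)
  have e1 : ∀ η, (∑ j ∈ range J, G j η) ^ 2 = ∑ i ∈ range J, ∑ j ∈ range J, G i η * G j η := fun η => by
    rw [sq, Finset.sum_mul_sum]
  simp_rw [e1]
  rw [integral_finsetSum _ fun i _ => integrable_finsetSum _ fun j _ => hGG i j]
  have hq0 : 0 ≤ q := by rw [← hq 0]; exact integral_nonneg fun η => h0 0 η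
  have h2 : ∀ i ∈ range J, ∫ η, ∑ j ∈ range J, G i η * G j η ∂(law F) ≤ q + J * (q * q) := by
    intro i hi
    rw [integral_finsetSum _ fun j _ => hGG i j]
    have h3 : ∀ j ∈ range J, ∫ η, G i η * G j η ∂(law F) ≤ (if i = j then q else 0) + q * q := by
      intro j hj
      by_cases h : i = j
      · subst h
        rw [if_pos rfl]
        have h4 : ∫ η, G i η * G i η ∂(law F) ≤ ∫ η, G i η ∂(law F) :=
          integral_mono (hGG i i) (hG i) fun η => mul_le_of_le_one_left (h0 i η) (h1 i η)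
        rw [hq] at h4
        have := mul_nonneg hq0 hq0
        linarith
      · rw [if_neg h, zero_add, hij i hi j hj h]
    refine (Finset.sum_le_sum h3).trans (le_of_eq ?_)
    rw [Finset.sum_add_distrib, Finset.sum_ite_eq, if_pos hi, Finset.sum_const, card_range, nsmul_eq_mul]
  refine (Finset.sum_le_sum h2).trans (le_of_eq ?_)
  rw [Finset.sum_const, card_range, nsmul_eq_mul]
  ring

/-- **Lucky lanes.** -/
theorem lanes14 (hd' : Adm F κ d') (ht' : Touch F d') (hE : CoreEv F d sl b Y M k E D) (hM : 1 ≤ M) {n J : ℕ}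
    (hn : 1 ≤ n) {pos : ℕ → ℤ}
    (hpos : ∀ i ∈ range J, ∀ j ∈ range J, i ≠ j → 2 * b < |((pos i - pos j : ℤ) : ℝ)|)
    (hp : 0 < p) (hpE : p ≤ (law F).real E) (hJ : 4 ≤ J * p) {A A' Y' : ℝ} {y0 : ℤ}
    (hA : ∀ j ∈ range J, ep F d' n (pos j) ≤ A) (hA' : ep F d' M y0 ≤ A') (hY0 : 0 ≤ Y')
    (hY' : Y' ≤ Y - |(al F.co d' - al F.co d) * M + (be F.co d' - be F.co d) * k|) :
    Y' * (3 / 4) ≤ A + A' := by
  classical
  have hJ0 : 0 < J := by
    rcases Nat.eq_zero_or_pos J with h | h
    · rw [h] at hJ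
      norm_num at hJ
    · exact h
  have h0J : (0 : ℕ) ∈ range J := mem_range.2 hJ0
  obtain ⟨a, ha⟩ : ∃ a : ℕ → Pt, ∀ j, a j = ((n : ℤ), pos j) := ⟨_, fun _ => rfl⟩
  obtain ⟨G, hG⟩ : ∃ G : ℕ → Env → ℝ, ∀ j, G j = GE F E (a j) := ⟨_, fun _ => rfl⟩
  obtain ⟨q, hq⟩ : ∃ q, q = (law F).real E := ⟨_, rfl⟩
  have hq0 : 0 < q := by rw [hq]; exact hp.trans_le hpE
  have hGm : ∀ j, Measurable (G j) := fun j => by rw [hG]; exact GE_meas hE _
  have hG0 : ∀ j η, 0 ≤ G j η := fun j η => by rw [hG]; exact GE_nonneg _ _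
  have hG1 : ∀ j η, G j η ≤ 1 := fun j η => by rw [hG]; exact GE_le_one _ _
  have hGq : ∀ j, ∫ η, G j η ∂(law F) = q := fun j => by rw [hG, hq]; exact GE_int hE _
  have hGb : ∀ j η, |G j η| ≤ 1 := fun j η => by rw [abs_of_nonneg (hG0 j η)]; exact hG1 j η
  have hij : ∀ i ∈ range J, ∀ j ∈ range J, i ≠ j → ∫ η, G i η * G j η ∂(law F) = q * q := by
    intro i hi j hj h
    have h1 := GE_indep hE (a := a i) (a' := a j) (DE_disj_cols hE (by rw [ha, ha]) (by
      rw [ha, ha]
      exact hpos i hi j hj h))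
    rw [GE_int hE, GE_int hE] at h1
    rw [hG, hG, hq]
    exact h1
  obtain ⟨S, hS⟩ : ∃ S : Env → ℝ, ∀ η, S η = ∑ j ∈ range J, G j η := ⟨_, fun _ => rfl⟩
  have hSe : S = fun η => ∑ j ∈ range J, G j η := funext hS
  have hSm : Measurable S := by rw [hSe]; exact Finset.measurable_sum _ fun j _ => hGm j
  have hS0 : ∀ η, 0 ≤ S η := fun η => by rw [hS]; exact Finset.sum_nonneg fun j _ => hG0 j η
  have hSJ : ∀ η, S η ≤ J := fun η => by
    rw [hS]
    refine (Finset.sum_le_sum fun j _ => hG1 j η).trans (le_of_eq ?_)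
    rw [Finset.sum_const, card_range, nsmul_eq_mul, mul_one]
  -- the values of the indicators
  have hG01 : ∀ j η, G j η = 0 ∨ G j η = 1 := by
    intro j η
    rw [hG]
    unfold GE
    by_cases h : F.shp (a j) η ∈ E
    · exact Or.inr (Set.indicator_of_mem h _)
    · exact Or.inl (Set.indicator_of_notMem h _)
  have hS01 : ∀ η, S η = 0 ∨ 1 ≤ S η := by
    intro η
    by_cases h : ∃ j ∈ range J, G j η = 1
    · obtain ⟨j, hj, hj1⟩ := h
      right
      rw [hS, ← hj1]
      exact Finset.single_le_sum (f := fun j => G j η) (fun i _ => hG0 i η) hj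
    · left
      push Not at h
      rw [hS]
      exact Finset.sum_eq_zero fun j hj => (hG01 j η).resolve_right (h j hj)
  -- the weights
  obtain ⟨w, hw⟩ : ∃ w : ℕ → Env → ℝ, ∀ j η, w j η = G j η / max 1 (S η) := ⟨_, fun _ _ => rfl⟩
  have hmax : ∀ η, 0 < max 1 (S η) := fun η => lt_max_of_lt_left one_pos
  have hwm : ∀ j, Measurable (w j) := fun j => by
    rw [show w j = fun η => G j η / max 1 (S η) from funext (hw j)]
    exact (hGm j).div (measurable_const.max hSm)
  have hw0 : ∀ j η, 0 ≤ w j η := fun j η => by rw [hw]; exact div_nonneg (hG0 j η) (hmax η).le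
  obtain ⟨W, hW⟩ : ∃ W : Env → ℝ, ∀ η, W η = ∑ j ∈ range J, w j η := ⟨_, fun _ => rfl⟩
  have hWe : W = fun η => ∑ j ∈ range J, w j η := funext hW
  have hWS : ∀ η, W η = S η / max 1 (S η) := fun η => by
    rw [hW, hS, Finset.sum_div]
    exact Finset.sum_congr rfl fun j _ => by rw [hw, hS]
  have hW0 : ∀ η, 0 ≤ W η := fun η => by rw [hW]; exact Finset.sum_nonneg fun j _ => hw0 j η
  have hW1 : ∀ η, W η ≤ 1 := fun η => by
    rw [hWS, div_le_one (hmax η)]
    exact le_max_right _ _
  have hw1 : ∀ j ∈ range J, ∀ η, w j η ≤ 1 := fun j hj η => by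
    refine le_trans ?_ (hW1 η)
    rw [hW]
    exact Finset.single_le_sum (f := fun j => w j η) (fun i _ => hw0 i η) hj
  have hWm : Measurable W := by rw [hWe]; exact Finset.measurable_sum _ fun j _ => hwm j
  have hWi : Integrable W (law F) := bint14 hWm (B := 1) fun η => by rw [abs_of_nonneg (hW0 η)]; exact hW1 η
  have hwi : ∀ j ∈ range J, Integrable (w j) (law F) := fun j hj =>
    bint14 (hwm j) (B := 1) fun η => by rw [abs_of_nonneg (hw0 j η)]; exact hw1 j hj η
  -- the probability of a lucky lane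
  have hWlow : 3 / 4 ≤ ∫ η, W η ∂(law F) := by
    obtain ⟨m, hm⟩ : ∃ m : ℝ, m = J * q := ⟨_, rfl⟩
    have hJR : (0 : ℝ) < J := by exact_mod_cast hJ0
    have hm4 : 4 ≤ m := by
      rw [hm]
      refine hJ.trans (mul_le_mul_of_nonneg_left ?_ hJR.le)
      rw [hq]
      exact hpE
    have hm0 : 0 < m := by linarith
    have hSi : Integrable S (law F) := bint14 hSm (B := J) fun η => by rw [abs_of_nonneg (hS0 η)]; exact hSJ η
    have hS2i : Integrable (fun η => S η ^ 2) (law F) := bint14 (hSm.pow_const 2) (B := (J : ℝ) ^ 2) fun η => by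
      rw [abs_of_nonneg (sq_nonneg _)]
      exact pow_le_pow_left₀ (hS0 η) (hSJ η) 2
    have hpt : ∀ η, 1 - (S η ^ 2 - 2 * m * S η + m ^ 2) / m ^ 2 ≤ W η := by
      intro η
      rcases hS01 η with h | h
      · rw [h]
        have : (0 : ℝ) ^ 2 - 2 * m * 0 + m ^ 2 = m ^ 2 := by ring
        rw [this, div_self (by positivity), sub_self]
        exact hW0 η
      · rw [hWS, max_eq_right h, div_self (by linarith)]
        have : 0 ≤ (S η ^ 2 - 2 * m * S η + m ^ 2) / m ^ 2 := by
          refine div_nonneg ?_ (by positivity)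
          nlinarith [sq_nonneg (S η - m)]
        linarith
    have i1 : Integrable (fun η => 1 - (S η ^ 2 - 2 * m * S η + m ^ 2) / m ^ 2) (law F) :=
      (integrable_const 1).sub (((hS2i.sub (hSi.const_mul (2 * m))).add (integrable_const (m ^ 2))).div_const _)
    have h1 := integral_mono i1 hWi hpt
    have i2 : Integrable (fun η => S η ^ 2 - 2 * m * S η) (law F) := hS2i.sub (hSi.const_mul (2 * m))
    have i3 : Integrable (fun η => S η ^ 2 - 2 * m * S η + m ^ 2) (law F) := i2.add (integrable_const _)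
    have e1 : ∫ η, (1 - (S η ^ 2 - 2 * m * S η + m ^ 2) / m ^ 2) ∂(law F) =
        1 - (∫ η, S η ^ 2 ∂(law F) - 2 * m * ∫ η, S η ∂(law F) + m ^ 2) / m ^ 2 := by
      rw [integral_sub (integrable_const 1) (i3.div_const _), integral_div, integral_add i2 (integrable_const _),
        integral_sub hS2i (hSi.const_mul _), integral_const_mul, integral_const, integral_const, probReal_univ,
        one_smul, one_smul]
    have e2 : ∫ η, S η ∂(law F) = m := by
      rw [hSe, integral_finsetSum _ fun j _ => bint14 (hGm j) (hGb j), Finset.sum_congr rfl fun j _ => hGq j,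
        Finset.sum_const, card_range, nsmul_eq_mul, hm]
    have e3 : ∫ η, S η ^ 2 ∂(law F) ≤ m + m ^ 2 := by
      have := sum_sq14 (F := F) (J := J) hGm hG0 hG1 hGq hij
      rw [hm, hSe]
      exact this
    rw [e1, e2] at h1
    have h2 : (∫ η, S η ^ 2 ∂(law F) - 2 * m * m + m ^ 2) / m ^ 2 ≤ 1 / 4 := by
      rw [div_le_iff₀ (by positivity)]
      nlinarith
    linarith
  -- the rows
  have hdj : Disjoint (F.co.slab (0 : Pt).1 ((0 : Pt).1 + (n : ℤ))) (F.co.rows (n : ℤ) (n + M)) := by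
    rw [Set.disjoint_left]
    rintro e he he'
    have h1 := he.2.2.1
    have h2 := he'.1
    simp only [Prod.fst_zero, zero_add] at h1
    linarith
  have hGdep : ∀ j, DependsOn (G j) (F.co.rows (n : ℤ) (n + M)) := by
    intro j η η' h
    rw [hG]
    refine GE_dep hE (a j) fun e he => h e ?_
    have := DE_rows hE (a j) he
    rwa [ha] at this
  have hSdep : DependsOn S (F.co.rows (n : ℤ) (n + M)) := by
    intro η η' h
    rw [hS, hS]
    exact Finset.sum_congr rfl fun j _ => hGdep j h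
  have hwdep : ∀ j, DependsOn (w j) (F.co.rows (n : ℤ) (n + M)) := by
    intro j η η' h
    rw [hw, hw, hGdep j h, hSdep h]
  have hWdep : DependsOn (fun η => 1 - W η) (F.co.rows (n : ℤ) (n + M)) := by
    intro η η' h
    show 1 - W η = 1 - W η'
    rw [hWS, hWS, hSdep h]
  obtain ⟨P, hP⟩ : ∃ P : ℕ → Env → ℝ, ∀ j η, P j η = max (X F d' η 0 n (pos j)) 0 := ⟨_, fun _ _ => rfl⟩
  have hPe : ∀ j, P j = fun η => max (X F d' η 0 n (pos j)) 0 := fun j => funext (hP j)
  have hPm : ∀ j, Measurable (P j) := fun j => by rw [hPe]; exact (X_meas F d' 0 n _).max measurable_const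
  have hP0 : ∀ j η, 0 ≤ P j η := fun j η => by rw [hP]; exact le_max_right _ _
  have hPi : ∀ j, Integrable (P j) (law F) := fun j => by rw [hPe]; exact (X_integrable hd' 0 hn _).pos_part
  have hPA : ∀ j ∈ range J, ∫ η, P j η ∂(law F) ≤ A := fun j hj => by
    rw [hPe]
    exact hA j hj
  have hPdep : ∀ j, DependsOn (P j) (F.co.slab (0 : Pt).1 ((0 : Pt).1 + (n : ℤ))) := by
    intro j η η' h
    rw [hP, hP]
    rw [show X F d' η 0 n (pos j) = X F d' η' 0 n (pos j) from X_dep F d' 0 n (pos j) h]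
  obtain ⟨Z, hZ⟩ : ∃ Z : Env → ℝ, ∀ η, Z η = max (X F d' η (a 0) M y0) 0 := ⟨_, fun _ => rfl⟩
  have hZe : Z = fun η => max (X F d' η (a 0) M y0) 0 := funext hZ
  have hZi : Integrable Z (law F) := by rw [hZe]; exact (X_integrable hd' _ hM _).pos_part
  have hZ0 : ∀ η, 0 ≤ Z η := fun η => by rw [hZ]; exact le_max_right _ _
  have hZA : ∫ η, Z η ∂(law F) ≤ A' := by
    rw [hZe]
    have := ep_at F d' (a 0) M y0
    rw [this]
    exact hA'
  -- pointwise
  have hXl : ∀ j η, G j η ≠ 0 → Y' ≤ -X F d' η (a j) M k := by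
    intro j η h
    rw [hG] at h
    have h1 := GE_luck hE h
    unfold X at h1 ⊢
    have h2 := le_abs_self ((al F.co d' - al F.co d) * M + (be F.co d' - be F.co d) * k)
    have h3 := neg_abs_le ((al F.co d' - al F.co d) * M + (be F.co d' - be F.co d) * k)
    nlinarith
  have hV : ∀ j η, -P j η - X F d' η (a j) M k ≤ VV F d' η 0 (n + M) := by
    intro j η
    have h1 := X_tri F d' η 0 hn hM (pos j) k
    have h2 := neg_X_le_VV hd' η 0 (show 1 ≤ n + M by omega) (pos j + k)
    have h3 : (0 : Pt) + ((n : ℤ), pos j) = a j := by rw [ha, zero_add]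
    rw [h3] at h1
    have h4 : X F d' η 0 n (pos j) ≤ P j η := by rw [hP]; exact le_max_left _ _
    linarith
  have hV0 : ∀ η, -P 0 η - Z η ≤ VV F d' η 0 (n + M) := by
    intro η
    have h1 := X_tri F d' η 0 hn hM (pos 0) y0
    have h2 := neg_X_le_VV hd' η 0 (show 1 ≤ n + M by omega) (pos 0 + y0)
    have h3 : (0 : Pt) + ((n : ℤ), pos 0) = a 0 := by rw [ha, zero_add]
    rw [h3] at h1
    have h4 : X F d' η 0 n (pos 0) ≤ P 0 η := by rw [hP]; exact le_max_left _ _
    have h5 : X F d' η (a 0) M y0 ≤ Z η := by rw [hZ]; exact le_max_left _ _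
    linarith
  have hpt : ∀ η, Y' * W η - ∑ j ∈ range J, w j η * P j η - (1 - W η) * P 0 η - Z η ≤ VV F d' η 0 (n + M) := by
    intro η
    have h1 : ∑ j ∈ range J, w j η * (Y' - P j η) ≤ ∑ j ∈ range J, w j η * VV F d' η 0 (n + M) := by
      refine Finset.sum_le_sum fun j _ => ?_
      by_cases h : G j η = 0
      · have : w j η = 0 := by rw [hw, h, zero_div]
        rw [this, zero_mul, zero_mul]
      · refine mul_le_mul_of_nonneg_left ?_ (hw0 j η)
        have h2 := hXl j η h
        have h3 := hV j η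
        linarith
    rw [← Finset.sum_mul, ← hW] at h1
    have h2 : ∑ j ∈ range J, w j η * (Y' - P j η) = Y' * W η - ∑ j ∈ range J, w j η * P j η := by
      rw [hW, Finset.mul_sum, ← Finset.sum_sub_distrib]
      exact Finset.sum_congr rfl fun j _ => by ring
    rw [h2] at h1
    have h3 : (1 - W η) * (-P 0 η - Z η) ≤ (1 - W η) * VV F d' η 0 (n + M) :=
      mul_le_mul_of_nonneg_left (hV0 η) (by linarith [hW1 η])
    have h4 : 0 ≤ W η * Z η := mul_nonneg (hW0 η) (hZ0 η)
    nlinarith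
  -- integrals
  have iwP : ∀ j ∈ range J, Integrable (fun η => w j η * P j η) (law F) := fun j hj =>
    (hPi j).bdd_mul (c := 1) (hwm j).aestronglyMeasurable (Filter.Eventually.of_forall fun η => by
      rw [Real.norm_eq_abs, abs_of_nonneg (hw0 j η)]
      exact hw1 j hj η)
  have iWP : Integrable (fun η => (1 - W η) * P 0 η) (law F) :=
    (hPi 0).bdd_mul (c := 1) (measurable_const.sub hWm).aestronglyMeasurable (Filter.Eventually.of_forall fun η => by
      rw [Real.norm_eq_abs, abs_of_nonneg (by linarith [hW1 η])]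
      linarith [hW0 η])
  have i1 : Integrable (fun η => Y' * W η - ∑ j ∈ range J, w j η * P j η) (law F) :=
    (hWi.const_mul Y').sub (integrable_finsetSum _ iwP)
  have i2 : Integrable (fun η => Y' * W η - ∑ j ∈ range J, w j η * P j η - (1 - W η) * P 0 η) (law F) := i1.sub iWP
  have h1 := integral_mono (i2.sub hZi) (VV_integrable hd' 0 (show 1 ≤ n + M by omega)) hpt
  have e0 : ∫ η, ((fun η => Y' * W η - ∑ j ∈ range J, w j η * P j η - (1 - W η) * P 0 η) - Z) η ∂(law F) =
      Y' * ∫ η, W η ∂(law F) - ∑ j ∈ range J, ∫ η, w j η * P j η ∂(law F) - ∫ η, (1 - W η) * P 0 η ∂(law F) -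
        ∫ η, Z η ∂(law F) := by
    have e1 := integral_sub i2 hZi
    simp only [Pi.sub_apply] at e1 ⊢
    rw [e1, integral_sub i1 iWP, integral_sub (hWi.const_mul Y') (integrable_finsetSum _ iwP), integral_const_mul,
      integral_finsetSum _ iwP]
  rw [e0] at h1
  have h2 : ∀ j ∈ range J, ∫ η, w j η * P j η ∂(law F) ≤ A * ∫ η, w j η ∂(law F) := by
    intro j hj
    rw [integral_indep (hwm j) (hPm j) (hwdep j) (hPdep j) hdj.symm, mul_comm]
    exact mul_le_mul_of_nonneg_right (hPA j hj) (integral_nonneg (hw0 j))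
  have h3 : ∑ j ∈ range J, ∫ η, w j η * P j η ∂(law F) ≤ A * ∫ η, W η ∂(law F) := by
    refine (Finset.sum_le_sum h2).trans (le_of_eq ?_)
    rw [← Finset.mul_sum, hWe, integral_finsetSum _ hwi]
  have h4 : ∫ η, (1 - W η) * P 0 η ∂(law F) ≤ A * (1 - ∫ η, W η ∂(law F)) := by
    have hWm1 : Measurable fun η => 1 - W η := measurable_const.sub hWm
    rw [integral_indep hWm1 (hPm 0) hWdep (hPdep 0) hdj.symm,
      integral_sub (integrable_const 1) hWi, integral_const, probReal_univ, one_smul, mul_comm]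
    refine mul_le_mul_of_nonneg_right (hPA 0 h0J) ?_
    have : ∫ η, W η ∂(law F) ≤ ∫ _, (1 : ℝ) ∂(law F) := integral_mono hWi (integrable_const 1) hW1
    rw [integral_const, probReal_univ, one_smul] at this
    linarith
  have h5 := VV_mean_le hd' ht' (show 1 ≤ n + M by omega)
  have h6 : Y' * (3 / 4) ≤ Y' * ∫ η, W η ∂(law F) := mul_le_mul_of_nonneg_left hWlow hY0
  linarith

end

end Pool.Agent.W_1b8d5d_h14
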