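import Mathlib

/-!
MP_1b8d5d_pr, Track P, D4 (proofs row 646, section 2): the parity lemma of the exact uncrossing. `D` is a pseudo metric on a path
with the vertices `0, …, l`. A passage `a → b` can be composed of given passages `p.1 → p.2` (`p ∈ L`) and of the edges of the path
over which an odd number of the end points lies.
-/

set_option autoImplicit false

open Finset

namespace Pool.Agent.W_1b8d5d_h14

/-- `1` if the point `x` lies behind the edge `(i, i + 1)`. -/
def c1 (i x : ℕ) : ℕ := if i < x then 1 else 0

/-- The number of the end points of the passages behind the edge `(i, i + 1)`. -/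
def cn (i : ℕ) (L : List (ℕ × ℕ)) : ℕ := (L.map fun p => c1 i p.1 + c1 i p.2).sum

/-- The number of all end points behind the edge `(i, i + 1)`. -/
def ct (a b : ℕ) (L : List (ℕ × ℕ)) (i : ℕ) : ℕ := c1 i a + c1 i b + cn i L

/-- The edges with an odd number of end points behind them. -/
def odds (l a b : ℕ) (L : List (ℕ × ℕ)) : Finset ℕ := (range l).filter fun i => ct a b L i % 2 = 1

theorem cn_append (i : ℕ) (L L' : List (ℕ × ℕ)) : cn i (L ++ L') = cn i L + cn i L' := by
  unfold cn
  rw [List.map_append, List.sum_append]

theorem cn_cons (i : ℕ) (p : ℕ × ℕ) (L : List (ℕ × ℕ)) : cn i (p :: L) = c1 i p.1 + c1 i p.2 + cn i L := by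
  unfold cn
  rw [List.map_cons, List.sum_cons]

theorem c1_zero {i x : ℕ} (h : x ≤ i) : c1 i x = 0 := by
  unfold c1
  rw [if_neg (by omega)]

theorem cn_zero {i : ℕ} {L : List (ℕ × ℕ)} (h : ∀ p ∈ L, p.1 ≤ i ∧ p.2 ≤ i) : cn i L = 0 := by
  induction L with
  | nil => rfl
  | cons p L ih =>
    rw [cn_cons, ih fun q hq => h q (List.mem_cons_of_mem _ hq), c1_zero (h p List.mem_cons_self).1,
      c1_zero (h p List.mem_cons_self).2]

/-- Points different from `a` do not change the count at `a`. -/
theorem c1_pred {a x : ℕ} (ha : 1 ≤ a) (hx : x ≠ a) : c1 (a - 1) x = c1 a x := by
  unfold c1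
  split_ifs <;> omega

theorem cn_pred {a : ℕ} {L : List (ℕ × ℕ)} (ha : 1 ≤ a) (h : ∀ p ∈ L, p.1 ≠ a ∧ p.2 ≠ a) : cn (a - 1) L = cn a L := by
  induction L with
  | nil => rfl
  | cons p L ih =>
    rw [cn_cons, cn_cons, ih fun q hq => h q (List.mem_cons_of_mem _ hq), c1_pred ha (h p List.mem_cons_self).1,
      c1_pred ha (h p List.mem_cons_self).2]

theorem cn_pos {L : List (ℕ × ℕ)} (h : ∀ p ∈ L, p.1 ≠ 0 ∧ p.2 ≠ 0) : cn 0 L = 2 * L.length := by
  induction L with
  | nil => rfl
  | cons p L ih =>
    rw [cn_cons, ih fun q hq => h q (List.mem_cons_of_mem _ hq), List.length_cons]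
    have h1 := h p List.mem_cons_self
    unfold c1
    rw [if_pos (by omega), if_pos (by omega)]
    ring

/-- **The parity lemma.** -/
theorem parity {D : ℕ → ℕ → ℝ} {w : ℕ → ℝ} {l : ℕ} (hD : ∀ i j, 0 ≤ D i j) (h0 : ∀ i, D i i ≤ 0)
    (hs : ∀ i j, D i j = D j i) (ht : ∀ i j k, D i k ≤ D i j + D j k) (hw : ∀ i, D i (i + 1) ≤ w i) :
    ∀ (N a b : ℕ) (L : List (ℕ × ℕ)), a ≤ l → b ≤ l → (∀ p ∈ L, p.1 ≤ l ∧ p.2 ≤ l) →
      L.length * (l + 1) + (odds l a b L).card ≤ N →
      D a b ≤ (L.map fun p => D p.1 p.2).sum + ∑ i ∈ odds l a b L, w i := by
  have hw0 : ∀ i, 0 ≤ w i := fun i => (hD i (i + 1)).trans (hw i)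
  have hL0 : ∀ L : List (ℕ × ℕ), 0 ≤ (L.map fun p => D p.1 p.2).sum := by
    intro L
    refine List.sum_nonneg fun x hx => ?_
    obtain ⟨p, -, rfl⟩ := List.mem_map.1 hx
    exact hD _ _
  intro N
  induction N with
  | zero =>
    intro a b L ha hb hL hN
    have hL' : L = [] := by
      rw [← List.length_eq_zero_iff]
      by_contra hne
      have : 1 ≤ L.length := Nat.one_le_iff_ne_zero.2 hne
      nlinarith
    subst hL'
    have hc : (odds l a b []).card = 0 := by
      simp only [List.length_nil] at hN
      omega
    rw [Finset.card_eq_zero] at hc
    have hab : a = b := by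
      by_contra hne
      rcases Nat.lt_or_ge a b with h | h
      · have : a ∈ odds l a b [] := by
          unfold odds
          rw [mem_filter, mem_range]
          refine ⟨by omega, ?_⟩
          unfold ct cn c1
          simp [h]
        rw [hc] at this
        exact absurd this (notMem_empty _)
      · have h' : b < a := by omega
        have : b ∈ odds l a b [] := by
          unfold odds
          rw [mem_filter, mem_range]
          refine ⟨by omega, ?_⟩
          unfold ct cn c1
          simp [h']
        rw [hc] at this
        exact absurd this (notMem_empty _)
    subst hab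
    have h1 := h0 a
    have h2 : 0 ≤ ∑ i ∈ odds l a a [], w i := sum_nonneg fun i _ => hw0 i
    have h3 := hL0 []
    linarith
  | succ N ih =>
    intro a b L ha hb hL hN
    by_cases hup : ct a b L a % 2 = 1
    · -- move `a` up
      have hal : a < l := by
        by_contra hcon
        have h1 : a = l := by omega
        have h2 : ct a b L a = 0 := by
          unfold ct
          rw [c1_zero le_rfl, c1_zero (by omega), cn_zero fun p hp => ⟨(hL p hp).1.trans h1.ge, (hL p hp).2.trans h1.ge⟩]
        rw [h2] at hup
        omega
      have hmem : a ∈ odds l a b L := by
        unfold odds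
        rw [mem_filter, mem_range]
        exact ⟨hal, hup⟩
      have hset : odds l (a + 1) b L = (odds l a b L).erase a := by
        unfold odds
        ext i
        rw [mem_erase, mem_filter, mem_filter, mem_range]
        by_cases hi : i = a
        · subst hi
          have h1 : ct (i + 1) b L i = ct i b L i + 1 := by
            have h4 : c1 i (i + 1) = 1 := by
              unfold c1
              rw [if_pos (by omega)]
            unfold ct
            rw [h4, c1_zero (le_refl i)]
            ring
          constructor
          · rintro ⟨-, h2⟩
            omega
          · rintro ⟨h2, -⟩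
            exact absurd rfl h2
        · have h1 : ct (a + 1) b L i = ct a b L i := by
            have h2 : c1 i (a + 1) = c1 i a := by
              unfold c1
              split_ifs <;> omega
            unfold ct
            rw [h2]
          rw [h1]
          tauto
      have hcard : (odds l (a + 1) b L).card = (odds l a b L).card - 1 := by rw [hset, card_erase_of_mem hmem]
      have hpos : 1 ≤ (odds l a b L).card := card_pos.2 ⟨a, hmem⟩
      have h1 := ih (a + 1) b L hal hb hL (by omega)
      have h2 : ∑ i ∈ odds l a b L, w i = w a + ∑ i ∈ odds l (a + 1) b L, w i := by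
        rw [hset, add_sum_erase _ _ hmem]
      have h3 := ht a (a + 1) b
      have h4 := hw a
      linarith
    · by_cases hdn : 1 ≤ a ∧ ct a b L (a - 1) % 2 = 1
      · -- move `a` down
        obtain ⟨ha1, hdn⟩ := hdn
        have hmem : a - 1 ∈ odds l a b L := by
          unfold odds
          rw [mem_filter, mem_range]
          exact ⟨by omega, hdn⟩
        have hset : odds l (a - 1) b L = (odds l a b L).erase (a - 1) := by
          unfold odds
          ext i
          rw [mem_erase, mem_filter, mem_filter, mem_range]
          by_cases hi : i = a - 1
          · have h1 : ct a b L i = ct (a - 1) b L i + 1 := by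
              have h4 : c1 i a = 1 := by
                unfold c1
                rw [if_pos (by omega)]
              have h5 : c1 i (a - 1) = 0 := c1_zero (by omega)
              unfold ct
              rw [h4, h5]
              ring
            have h2 : ct a b L i % 2 = 1 := by rw [hi]; exact hdn
            constructor
            · rintro ⟨-, h3⟩
              omega
            · rintro ⟨h3, -⟩
              exact absurd hi h3
          · have h1 : ct (a - 1) b L i = ct a b L i := by
              have h2 : c1 i (a - 1) = c1 i a := by
                unfold c1
                split_ifs <;> omega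
              unfold ct
              rw [h2]
            rw [h1]
            tauto
        have hcard : (odds l (a - 1) b L).card = (odds l a b L).card - 1 := by rw [hset, card_erase_of_mem hmem]
        have hpos : 1 ≤ (odds l a b L).card := card_pos.2 ⟨a - 1, hmem⟩
        have h1 := ih (a - 1) b L (by omega) hb hL (by omega)
        have h2 : ∑ i ∈ odds l a b L, w i = w (a - 1) + ∑ i ∈ odds l (a - 1) b L, w i := by
          rw [hset, add_sum_erase _ _ hmem]
        have h3 := ht a (a - 1) b
        have h4 := hw (a - 1)
        rw [show a - 1 + 1 = a by omega, ← hs] at h4
        linarith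
      · -- another point at `a`
        have hRHS : 0 ≤ ∑ i ∈ odds l a b L, w i := sum_nonneg fun i _ => hw0 i
        by_cases hba : b = a
        · have h1 := h0 a
          have h2 := hL0 L
          rw [hba]
          rw [hba] at hRHS
          linarith
        · by_cases hex : ∃ p ∈ L, p.1 = a ∨ p.2 = a
          · obtain ⟨p, hp, hpa⟩ := hex
            obtain ⟨s, t, rfl⟩ := List.append_of_mem hp
            obtain ⟨c, hc, hcl, hpar⟩ : ∃ c : ℕ, D a c = D p.1 p.2 ∧ c ≤ l ∧ ∀ i, c1 i p.1 + c1 i p.2 = c1 i a + c1 i c := by
              rcases hpa with h | h
              · exact ⟨p.2, by rw [h], (hL p hp).2, fun i => by rw [h]⟩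
              · exact ⟨p.1, by rw [hs, h], (hL p hp).1, fun i => by rw [h]; ring⟩
            have hodd : odds l c b (s ++ t) = odds l a b (s ++ p :: t) := by
              unfold odds
              ext i
              rw [mem_filter, mem_filter]
              have h1 : ct a b (s ++ p :: t) i = ct c b (s ++ t) i + 2 * c1 i a := by
                unfold ct
                rw [cn_append, cn_append, cn_cons, hpar i]
                ring
              rw [h1]
              have h2 : (ct c b (s ++ t) i + 2 * c1 i a) % 2 = ct c b (s ++ t) i % 2 := by omega
              rw [h2]
            have h1 := ih c b (s ++ t) hcl hb (fun q hq => hL q (by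
              rw [List.mem_append] at hq
              rw [List.mem_append, List.mem_cons]
              tauto)) (by
                rw [hodd]
                rw [List.length_append, List.length_cons] at hN
                rw [List.length_append]
                nlinarith)
            rw [hodd] at h1
            have h2 := ht a c b
            rw [hc] at h2
            have h3 : ((s ++ p :: t).map fun p => D p.1 p.2).sum = ((s ++ t).map fun p => D p.1 p.2).sum + D p.1 p.2 := by
              rw [List.map_append, List.map_cons, List.sum_append, List.sum_cons, List.map_append, List.sum_append]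
              ring
            rw [h3]
            linarith
          · exfalso
            have hex' : ∀ p ∈ L, p.1 ≠ a ∧ p.2 ≠ a := by
              intro p hp
              constructor
              · intro h
                exact hex ⟨p, hp, Or.inl h⟩
              · intro h
                exact hex ⟨p, hp, Or.inr h⟩
            rcases Nat.eq_zero_or_pos a with h | h
            · subst h
              have h1 := cn_pos hex'
              have h2 : ct 0 b L 0 = 1 + 2 * L.length := by
                have h4 : c1 0 b = 1 := by
                  unfold c1
                  rw [if_pos (by omega)]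
                unfold ct
                rw [h1, h4, c1_zero (le_refl 0)]
              omega
            · have h1 := cn_pred h hex'
              have h2 := c1_pred h hba
              have h3 : ct a b L (a - 1) = ct a b L a + 1 := by
                unfold ct
                rw [h1, h2]
                have h4 : c1 (a - 1) a = 1 := by
                  unfold c1
                  rw [if_pos (by omega)]
                have h5 : c1 a a = 0 := c1_zero le_rfl
                rw [h4, h5]
                omega
              rw [not_and] at hdn
              have := hdn h
              omega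

end Pool.Agent.W_1b8d5d_h14
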