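import Pool.Agent.W_1b8d5d_h14.UncC14

/-!
MP_1b8d5d_pr, Track P, D4 (proofs row 646, section 2), the record trick, pathwise: a walk in a tube `Tb`, references
`(k p, x k) → (k p + t₀, y k)` from one side of the tube to the other side, `t₀ < p`.
-/

set_option autoImplicit false

namespace Pool.Agent.W_1b8d5d_h14

open MeasureTheory Set
open Pool.Agent.W_1b8d5d_h85 Pool.Agent.W_1b8d5d_p

variable {a b : ℝ} {τ : Env}

/-- The edges after the reference `k`. -/
def UU14 (c : Co) (Tb : Set Edge) (p t₀ T k : ℕ) : Set Edge :=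
  c.slab ((k : ℤ) * p) T ∩ (Tb ∪ c.slab ((k : ℤ) * p) ((k : ℤ) * p + t₀))

theorem TT_at (c : Co) (τ : Env) {n n' : ℤ} {m : ℕ} (h : n' = n + m) (i j : ℤ) :
    TR (c.slab n n') τ (c.vt (n, i)) (c.vt (n', j)) = TT c τ (n, i) m (j - i) := by
  unfold TT
  have e1 : ((n, i) : Pt) + ((m : ℤ), j - i) = (n', j) := by
    rw [h]
    ext <;> simp
  rw [e1, h]

/-- **The record trick, pathwise.** -/
theorem rec_path {c : Co} (hτ : Bd a b τ) (ha : 0 < a) {Tb : Set Edge} {K p t₀ T : ℕ} (ht₀ : 1 ≤ t₀) (hp : t₀ + 1 ≤ p)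
    (hT : T = K * p + t₀) {Z : ℤ} {x y : ℕ → ℤ} {sg : ℤ} (hsg : sg = 1 ∨ sg = -1)
    (hlow : ∀ k ≤ K, ∀ z : V, (z = c.vt 0 ∨ ∃ e ∈ Tb, z = e.1 ∨ z = e.1 + dir e.2) →
      c.L * ((k : ℤ) * p) - c.M < c.tm z → c.tm z ≤ c.L * ((k : ℤ) * p) → m14 c < sg * (x k - c.ps z))
    (hhigh : ∀ k ≤ K, ∀ z : V, (z = c.vt 0 ∨ ∃ e ∈ Tb, z = e.1 ∨ z = e.1 + dir e.2) →
      c.L * ((k : ℤ) * p + t₀) ≤ c.tm z → c.tm z < c.L * ((k : ℤ) * p + t₀) + c.M → m14 c < sg * (c.ps z - y k))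
    (ne : Nonempty (WK (c.slab 0 T ∩ Tb) (c.vt 0) (c.vt ((T : ℤ), Z)))) :
    TT c τ 0 t₀ (y 0) + ∑ k ∈ Finset.range K, TT c τ ((k : ℤ) * p, x k) (p + t₀) (y (k + 1) - x k) +
      TT c τ ((K : ℤ) * p, x K) t₀ (Z - x K) ≤
      TR (c.slab 0 T ∩ Tb) τ (c.vt 0) (c.vt ((T : ℤ), Z)) +
        ∑ k ∈ Finset.range (K + 1), TT c τ ((k : ℤ) * p, x k) t₀ (y k - x k) := by
  have hL := c.L_pos
  have hLM := c.L_eq
  have hM := c.M_pos
  have hmul : ∀ s t : ℤ, s ≤ t → c.L * s ≤ c.L * t := fun s t h => mul_le_mul_of_nonneg_left h (by omega)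
  have hKp : ∀ k : ℕ, k ≤ K → (k : ℤ) * p + t₀ ≤ T := by
    intro k hk
    rw [hT]
    push_cast
    have : (k : ℤ) * p ≤ K * p := mul_le_mul_of_nonneg_right (by exact_mod_cast hk) (by positivity)
    linarith
  have hp' : (t₀ : ℤ) + 1 ≤ p := by exact_mod_cast hp
  have ht₀' : (1 : ℤ) ≤ t₀ := by exact_mod_cast ht₀
  have hT0 : (0 : ℤ) ≤ T := by positivity
  have step0 : ∀ k : ℕ, ((k + 1 : ℕ) : ℤ) * p = (k : ℤ) * p + p := by
    intro k
    push_cast
    ring
  have main : ∀ k : ℕ, k ≤ K → TT c τ 0 t₀ (y 0) + ∑ j ∈ Finset.range k, TT c τ ((j : ℤ) * p, x j) (p + t₀) (y (j + 1) - x j) +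
      TR (UU14 c Tb p t₀ T k) τ (c.vt ((k : ℤ) * p, x k)) (c.vt ((T : ℤ), Z)) ≤
      TR (c.slab 0 T ∩ Tb) τ (c.vt 0) (c.vt ((T : ℤ), Z)) +
        ∑ j ∈ Finset.range (k + 1), TT c τ ((j : ℤ) * p, x j) t₀ (y j - x j) ∧
      Nonempty (WK (UU14 c Tb p t₀ T k) (c.vt ((k : ℤ) * p, x k)) (c.vt ((T : ℤ), Z))) := by
    intro k
    induction k with
    | zero =>
      intro _
      have e0 : ((0 : ℕ) : ℤ) * p = 0 := by simp
      have h := unc14 (c := c) hτ ha (S := c.slab 0 T ∩ Tb) (A := 0) (B := T) (A' := 0) (B' := t₀) Set.inter_subset_left le_rfl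
        (by omega) (by
          have := hKp 0 (Nat.zero_le _)
          rw [e0] at this
          linarith) (x := c.vt 0) (y := c.vt ((T : ℤ), Z)) (by
          rw [Co.tm_vt]
          simp) (by
          rw [Co.tm_vt]
          refine hmul _ _ ?_
          have := hKp 0 (Nat.zero_le _)
          rw [e0] at this
          simpa using this) (i := x 0) (j := y 0) ne hsg (fun z hz h1 h2 => hlow 0 (Nat.zero_le _) z (by
            rcases hz with hz | ⟨e, he, hz⟩
            · exact Or.inl hz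
            · exact Or.inr ⟨e, he.2, hz⟩) (by rw [e0]; exact h1) (by rw [e0]; exact h2))
          (fun z hz h1 h2 => hhigh 0 (Nat.zero_le _) z (by
            rcases hz with hz | ⟨e, he, hz⟩
            · exact Or.inl hz
            · exact Or.inr ⟨e, he.2, hz⟩) (by rw [e0, zero_add]; exact h1) (by rw [e0, zero_add]; exact h2))
      have hsub : (c.slab 0 T ∩ Tb ∪ c.slab 0 t₀) ∩ c.slab 0 T ⊆ UU14 c Tb p t₀ T 0 := by
        rintro e ⟨he1, he2⟩
        unfold UU14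
        rw [e0, zero_add]
        refine ⟨he2, ?_⟩
        rcases he1 with he1 | he1
        · exact Or.inl he1.2
        · exact Or.inr he1
      obtain ⟨h1, h2⟩ := h
      have h3 := TR_anti hτ ha.le h2 hsub
      have e1 : TR (c.slab 0 t₀) τ (c.vt 0) (c.vt ((t₀ : ℤ), y 0)) = TT c τ 0 t₀ (y 0) := by
        have := TT_at c τ (n := 0) (n' := (t₀ : ℤ)) (m := t₀) (by ring) 0 (y 0)
        rw [sub_zero] at this
        exact this
      have e2 : TR (c.slab 0 t₀) τ (c.vt (0, x 0)) (c.vt ((t₀ : ℤ), y 0)) = TT c τ (((0 : ℕ) : ℤ) * p, x 0) t₀ (y 0 - x 0) := by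
        rw [e0]
        exact TT_at c τ (n := 0) (n' := (t₀ : ℤ)) (m := t₀) (by ring) (x 0) (y 0)
      rw [e1, e2] at h1
      refine ⟨?_, ?_⟩
      · rw [Finset.sum_range_zero, Finset.sum_range_one, e0]
        rw [e0] at h1
        linarith
      · obtain ⟨⟨W, hW⟩⟩ := h2
        rw [e0]
        exact ⟨⟨W, fun e he => hsub (hW e he)⟩⟩
    | succ k ih =>
      intro hk
      obtain ⟨ih1, ih2⟩ := ih (by omega)
      have hstep := step0 k
      have hpos : (0 : ℤ) ≤ (k : ℤ) * p := by positivity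
      have hkT := hKp (k + 1) hk
      -- the edges of the previous reference are below
      have hlowref : ∀ e ∈ c.slab ((k : ℤ) * p) ((k : ℤ) * p + t₀), ∀ z : V, (z = e.1 ∨ z = e.1 + dir e.2) →
          c.tm z ≤ c.L * (((k + 1 : ℕ) : ℤ) * p) - c.L := by
        intro e he z hz
        have h1 := c.tm_edge e
        have h2 : c.tm (e.1 + dir e.2) ≤ c.L * ((k : ℤ) * p + t₀) := he.2.1
        have h3 : c.L * ((k : ℤ) * p + t₀) ≤ c.L * (((k + 1 : ℕ) : ℤ) * p - 1) := hmul _ _ (by rw [hstep]; linarith)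
        have h4 : c.L * (((k + 1 : ℕ) : ℤ) * p - 1) = c.L * (((k + 1 : ℕ) : ℤ) * p) - c.L := by ring
        rcases hz with rfl | rfl
        · linarith [h1.1]
        · linarith
      have hzone : ∀ z : V, (z = c.vt ((k : ℤ) * p, x k) ∨ ∃ e ∈ UU14 c Tb p t₀ T k, z = e.1 ∨ z = e.1 + dir e.2) →
          c.L * (((k + 1 : ℕ) : ℤ) * p) - c.M < c.tm z → (z = c.vt 0 ∨ ∃ e ∈ Tb, z = e.1 ∨ z = e.1 + dir e.2) := by
        intro z hz h1
        rcases hz with hz | ⟨e, he, hz⟩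
        · exfalso
          rw [hz, Co.tm_vt] at h1
          simp only at h1
          have h2 : c.L * ((k : ℤ) * p) ≤ c.L * (((k + 1 : ℕ) : ℤ) * p - 1) := hmul _ _ (by rw [hstep]; linarith)
          have h4 : c.L * (((k + 1 : ℕ) : ℤ) * p - 1) = c.L * (((k + 1 : ℕ) : ℤ) * p) - c.L := by ring
          linarith
        · rcases he.2 with he2 | he2
          · exact Or.inr ⟨e, he2, hz⟩
          · exfalso
            have := hlowref e he2 z hz
            linarith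
      have h := unc14 (c := c) hτ ha (S := UU14 c Tb p t₀ T k) (A := (k : ℤ) * p) (B := T) (A' := ((k + 1 : ℕ) : ℤ) * p)
        (B' := ((k + 1 : ℕ) : ℤ) * p + t₀) Set.inter_subset_left (by rw [hstep]; linarith) (by linarith) hkT
        (x := c.vt ((k : ℤ) * p, x k)) (y := c.vt ((T : ℤ), Z)) (by
          rw [Co.tm_vt]
          exact hmul _ _ (by rw [hstep]; simp only; linarith)) (by
          rw [Co.tm_vt]
          exact hmul _ _ hkT) (i := x (k + 1)) (j := y (k + 1)) ih2 hsg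
        (fun z hz h1 h2 => hlow (k + 1) hk z (hzone z hz h1) h1 h2)
        (fun z hz h1 h2 => hhigh (k + 1) hk z (hzone z hz (by
          have h3 : c.L * (((k + 1 : ℕ) : ℤ) * p) ≤ c.L * (((k + 1 : ℕ) : ℤ) * p + t₀) := hmul _ _ (by linarith)
          linarith)) h1 h2)
      have hsub : (UU14 c Tb p t₀ T k ∪ c.slab (((k + 1 : ℕ) : ℤ) * p) (((k + 1 : ℕ) : ℤ) * p + t₀)) ∩
          c.slab (((k + 1 : ℕ) : ℤ) * p) T ⊆ UU14 c Tb p t₀ T (k + 1) := by
        rintro e ⟨he1, he2⟩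
        refine ⟨he2, ?_⟩
        rcases he1 with he1 | he1
        · rcases he1.2 with he3 | he3
          · exact Or.inl he3
          · exfalso
            have h3 := hlowref e he3 e.1 (Or.inl rfl)
            have h4 : c.L * (((k + 1 : ℕ) : ℤ) * p) ≤ c.tm e.1 := he2.1
            linarith
        · exact Or.inr he1
      obtain ⟨h1, h2⟩ := h
      have h3 := TR_anti hτ ha.le h2 hsub
      have e1 := TT_at c τ (n := (k : ℤ) * p) (n' := ((k + 1 : ℕ) : ℤ) * p + t₀) (m := p + t₀) (by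
        rw [hstep]
        push_cast
        ring) (x k) (y (k + 1))
      have e2 := TT_at c τ (n := ((k + 1 : ℕ) : ℤ) * p) (n' := ((k + 1 : ℕ) : ℤ) * p + t₀) (m := t₀) rfl (x (k + 1)) (y (k + 1))
      rw [e1, e2] at h1
      refine ⟨?_, ?_⟩
      · rw [Finset.sum_range_succ, Finset.sum_range_succ (fun j : ℕ => TT c τ ((j : ℤ) * p, x j) t₀ (y j - x j)) (k + 1)]
        linarith
      · obtain ⟨⟨W, hW⟩⟩ := h2
        exact ⟨⟨W, fun e he => hsub (hW e he)⟩⟩
  obtain ⟨h1, h2⟩ := main K le_rfl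
  have hend := TR_anti hτ ha.le h2 (Set.inter_subset_left : UU14 c Tb p t₀ T K ⊆ c.slab ((K : ℤ) * p) T)
  have e1 := TT_at c τ (n := (K : ℤ) * p) (n' := (T : ℤ)) (m := t₀) (by rw [hT]; push_cast; ring) (x K) Z
  rw [e1] at hend
  linarith

end Pool.Agent.W_1b8d5d_h14
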