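import Pool.Agent.W_1b8d5d_h14.RecA14
import Pool.Agent.W_1b8d5d_h57p.TubeC
import Pool.Agent.W_1b8d5d_h57p.TubeR
import Pool.Agent.W_1b8d5d_p.Unit1

/-!
MP_1b8d5d_pr, Track P, D4 (proofs row 646, section 2): **the record trick at `T = 0`, in the mean, without any error** (`rec14`).
The tube has the slope `r` and the half width `D`; the references have the cheapest displacement `xs F d t₀` and pass from the side
`sg` of the tube to the other side.
-/

set_option autoImplicit false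

namespace Pool.Agent.W_1b8d5d_h14

open MeasureTheory Set
open Pool.Agent.W_1b8d5d_h85 Pool.Agent.W_1b8d5d_p Pool.Agent.W_1b8d5d_h57p

variable {F : Fm} {κ : ℝ} {d : Dr}

/-- The lateral constant of the record trick. -/
noncomputable def C14 (F : Fm) (r : ℝ) : ℝ := 2 * (m14 F.co + 2 + |r|)

theorem XT_integrable14 {d : Dr} {D : ℝ} {n : ℕ} {y : ℤ} (h : HasT F d D n y) :
    Integrable (fun η => XT F d D η 0 n y) (law F) := by
  obtain ⟨⟨W, hW⟩⟩ := h
  refine (integrable_const (F.b * W.length + |al F.co d * n + be F.co d * y|)).mono' (XT_meas F d D 0 n y).aestronglyMeasurable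
    (Filter.Eventually.of_forall fun η => ?_)
  have h1 := TR_le (F.bd η) F.a0.le W hW
  have h2 := TR_nonneg (F.bd η) F.a0.le (F.co.slab 0 (0 + n) ∩ TbE F d 0 D) (F.co.vt 0) (F.co.vt (0 + ((n : ℤ), y)))
  have h3 := cost_le (F.bd η) W
  have h4 : XT F d D η 0 n y = TR (F.co.slab 0 (0 + n) ∩ TbE F d 0 D) (F.tau η) (F.co.vt 0) (F.co.vt (0 + ((n : ℤ), y))) -
    (al F.co d * n + be F.co d * y) := rfl
  rw [Real.norm_eq_abs, h4]
  have h5 := abs_le.1 (le_refl |al F.co d * n + be F.co d * y|)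
  rw [abs_le]
  constructor <;> linarith [h5.1, h5.2]

/-- The position of a vertex of the tube. -/
theorem ps_tube {r D : ℝ} {z : V} (h : |latV F (wv d r) z| < D) {n : ℤ} {δ : ℝ} (hn : |(F.co.tm z : ℝ) - F.co.L * n| ≤ F.co.L * δ)
    : |(F.co.ps z : ℝ) - r * n| < D + |r| * δ := by
  have hL : (0 : ℝ) < F.co.L := by
    have := F.co.L_pos
    exact_mod_cast (show (0 : ℤ) < F.co.L by omega)
  have e1 : latV F (wv d r) z = (F.co.ps z : ℝ) - r * ((F.co.tm z : ℝ) / F.co.L) := rfl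
  have e2 : (F.co.ps z : ℝ) - r * n = latV F (wv d r) z + r * (((F.co.tm z : ℝ) - F.co.L * n) / F.co.L) := by
    rw [e1]
    field_simp
    ring
  rw [e2]
  have h1 : |((F.co.tm z : ℝ) - F.co.L * n) / F.co.L| ≤ δ := by
    rw [abs_div, abs_of_pos hL, div_le_iff₀ hL]
    linarith
  calc |latV F (wv d r) z + r * (((F.co.tm z : ℝ) - F.co.L * n) / F.co.L)|
      ≤ |latV F (wv d r) z| + |r * (((F.co.tm z : ℝ) - F.co.L * n) / F.co.L)| := abs_add_le _ _
    _ < D + |r| * δ := by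
      rw [abs_mul]
      have := mul_le_mul_of_nonneg_left h1 (abs_nonneg r)
      linarith

/-- The record trick in the mean, the displacements explicit: the references start at `x k = ⌊r (k p) + sg (D + C / 2)⌋`. -/
theorem rec_gen (hd : Adm F κ d) {r D C : ℝ} {K p t₀ T : ℕ} (ht₀ : 1 ≤ t₀) (hp : t₀ + 1 ≤ p) (hT : T = K * p + t₀) {Z ξ : ℤ}
    {sg : ℤ} (hsg : sg = 1 ∨ sg = -1) (hD : 0 < D) (hC : C14 F r ≤ C) (hξ : 2 * D + C ≤ sg * (r * t₀ - ξ))
    (ne : HasT F (wv d r) D T Z) {x : ℕ → ℤ} (hx : ∀ k : ℕ, x k = ⌊r * ((k : ℤ) * p : ℤ) + sg * (D + C / 2)⌋) :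
    e F d t₀ (x 0 + ξ) + ∑ k ∈ Finset.range K, e F d (p + t₀) (x (k + 1) + ξ - x k) + e F d t₀ (Z - x K) ≤
      ∫ η, XT F (wv d r) D η 0 T Z ∂(law F) + (K + 1) * e F d t₀ ξ := by
  have hL := F.co.L_pos
  have hLM := F.co.L_eq
  have hM := F.co.M_pos
  have hLr : (0 : ℝ) < F.co.L := by exact_mod_cast (show (0 : ℤ) < F.co.L by omega)
  have hML : (F.co.M : ℝ) ≤ F.co.L := by exact_mod_cast (show F.co.M ≤ F.co.L by omega)
  have hC2 : m14 F.co + 2 + |r| ≤ C / 2 := by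
    have h1 : C14 F r = 2 * (m14 F.co + 2 + |r|) := rfl
    rw [h1] at hC
    linarith
  have hx1 : ∀ k : ℕ, (x k : ℝ) ≤ r * ((k : ℤ) * p : ℤ) + sg * (D + C / 2) := fun k => by rw [hx]; exact Int.floor_le _
  have hx2 : ∀ k : ℕ, r * ((k : ℤ) * p : ℤ) + sg * (D + C / 2) < (x k : ℝ) + 1 := fun k => by rw [hx]; exact Int.lt_floor_add_one _
  -- the vertices of the tube
  have hlat : ∀ z : V, (z = F.co.vt 0 ∨ ∃ e ∈ TbE F (wv d r) 0 D, z = e.1 ∨ z = e.1 + dir e.2) → |latV F (wv d r) z| < D := by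
    intro z hz
    rcases hz with rfl | ⟨e, he, hz⟩
    · rw [latV_vt, lat_zero, abs_zero]
      exact hD
    · have h1 := he.1
      have h2 := he.2
      rw [lat_zero, sub_zero] at h1 h2
      rcases hz with rfl | rfl
      · exact h1
      · exact h2
  have ne' : Nonempty (WK (F.co.slab 0 T ∩ TbE F (wv d r) 0 D) (F.co.vt 0) (F.co.vt ((T : ℤ), Z))) := by
    have h := ne
    unfold HasT at h
    rwa [zero_add, zero_add] at h
  have hpath : ∀ η : Env, X F d η 0 t₀ (x 0 + ξ) + ∑ k ∈ Finset.range K, X F d η ((k : ℤ) * p, x k) (p + t₀) (x (k + 1) + ξ - x k) +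
      X F d η ((K : ℤ) * p, x K) t₀ (Z - x K) ≤
      XT F (wv d r) D η 0 T Z + ∑ k ∈ Finset.range (K + 1), X F d η ((k : ℤ) * p, x k) t₀ ξ := by
    intro η
    have h := rec_path (c := F.co) (F.bd η) F.a0 (Tb := TbE F (wv d r) 0 D) (K := K) ht₀ hp hT (Z := Z) (x := x)
      (y := fun k => x k + ξ) hsg (fun k _ z hz h1 h2 => by
        have h3 := ps_tube (hlat z hz) (n := (k : ℤ) * p) (δ := 1) (by
          rw [mul_one, abs_le]
          have h1' : ((F.co.L * ((k : ℤ) * p) - F.co.M : ℤ) : ℝ) < F.co.tm z := by exact_mod_cast h1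
          have h2' : (F.co.tm z : ℝ) ≤ ((F.co.L * ((k : ℤ) * p) : ℤ) : ℝ) := by exact_mod_cast h2
          push_cast at h1' h2' ⊢
          constructor <;> linarith)
        rw [mul_one, abs_lt] at h3
        have h4 := hx1 k
        have h5 := hx2 k
        have goal : ((m14 F.co : ℤ) : ℝ) < ((sg * (x k - F.co.ps z) : ℤ) : ℝ) := by
          rcases hsg with h | h
          · rw [h] at h4 h5 ⊢
            push_cast at h3 h4 h5 ⊢
            linarith [h3.1, h3.2]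
          · rw [h] at h4 h5 ⊢
            push_cast at h3 h4 h5 ⊢
            linarith [h3.1, h3.2]
        exact_mod_cast goal)
      (fun k _ z hz h1 h2 => by
        have h3 := ps_tube (hlat z hz) (n := (k : ℤ) * p + t₀) (δ := 1) (by
          rw [mul_one, abs_le]
          have h1' : ((F.co.L * ((k : ℤ) * p + t₀) : ℤ) : ℝ) ≤ F.co.tm z := by exact_mod_cast h1
          have h2' : (F.co.tm z : ℝ) < ((F.co.L * ((k : ℤ) * p + t₀) + F.co.M : ℤ) : ℝ) := by exact_mod_cast h2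
          push_cast at h1' h2' ⊢
          constructor <;> linarith)
        rw [mul_one, abs_lt] at h3
        have h4 := hx1 k
        have h5 := hx2 k
        have goal : ((m14 F.co : ℤ) : ℝ) < ((sg * (F.co.ps z - (x k + ξ)) : ℤ) : ℝ) := by
          rcases hsg with h | h
          · rw [h] at h4 h5 hξ ⊢
            push_cast at h3 h4 h5 hξ ⊢
            linarith [h3.1, h3.2]
          · rw [h] at h4 h5 hξ ⊢
            push_cast at h3 h4 h5 hξ ⊢
            linarith [h3.1, h3.2]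
        exact_mod_cast goal) ne'
    have hXT : XT F (wv d r) D η 0 T Z = TR (F.co.slab 0 T ∩ TbE F (wv d r) 0 D) (F.tau η) (F.co.vt 0) (F.co.vt ((T : ℤ), Z)) -
        (al F.co d * T + be F.co d * Z) := by
      unfold XT
      rw [zero_add]
      simp only [Prod.fst_zero, zero_add]
      rfl
    have hX : ∀ (a : Pt) (n : ℕ) (y : ℤ), X F d η a n y = TT F.co (F.tau η) a n y - (al F.co d * n + be F.co d * y) :=
      fun _ _ _ => rfl
    have s1 : ∑ k ∈ Finset.range K, X F d η ((k : ℤ) * p, x k) (p + t₀) (x (k + 1) + ξ - x k) =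
        ∑ k ∈ Finset.range K, TT F.co (F.tau η) ((k : ℤ) * p, x k) (p + t₀) (x (k + 1) + ξ - x k) -
          (K * (al F.co d * (p + t₀)) + be F.co d * ((x K : ℝ) - x 0 + K * ξ)) := by
      have h1 : ∑ k ∈ Finset.range K, ((x (k + 1) : ℝ) - x k) = (x K : ℝ) - x 0 :=
        Finset.sum_range_sub (fun k => (x k : ℝ)) K
      have h2 : ∑ k ∈ Finset.range K, X F d η ((k : ℤ) * p, x k) (p + t₀) (x (k + 1) + ξ - x k) =
          ∑ k ∈ Finset.range K, (TT F.co (F.tau η) ((k : ℤ) * p, x k) (p + t₀) (x (k + 1) + ξ - x k) -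
            (al F.co d * (p + t₀) + be F.co d * ξ) - be F.co d * ((x (k + 1) : ℝ) - x k)) := by
        refine Finset.sum_congr rfl fun k _ => ?_
        rw [hX]
        push_cast
        ring
      rw [h2, Finset.sum_sub_distrib, Finset.sum_sub_distrib, ← Finset.mul_sum, h1, Finset.sum_const, Finset.card_range,
        nsmul_eq_mul]
      ring
    have s2 : ∑ k ∈ Finset.range (K + 1), X F d η ((k : ℤ) * p, x k) t₀ ξ =
        ∑ k ∈ Finset.range (K + 1), TT F.co (F.tau η) ((k : ℤ) * p, x k) t₀ (x k + ξ - x k) -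
          (K + 1) * (al F.co d * t₀ + be F.co d * ξ) := by
      have h2 : ∑ k ∈ Finset.range (K + 1), X F d η ((k : ℤ) * p, x k) t₀ ξ =
          ∑ k ∈ Finset.range (K + 1), (TT F.co (F.tau η) ((k : ℤ) * p, x k) t₀ (x k + ξ - x k) -
            (al F.co d * t₀ + be F.co d * ξ)) := by
        refine Finset.sum_congr rfl fun k _ => ?_
        rw [hX, add_sub_cancel_left]
      rw [h2, Finset.sum_sub_distrib, Finset.sum_const, Finset.card_range, nsmul_eq_mul]
      push_cast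
      ring
    rw [s1, s2, hXT, hX, hX, hT]
    rw [hT] at h
    push_cast at h ⊢
    linarith
  have hi1 : ∀ (a : Pt) (y : ℤ), Integrable (fun η => X F d η a t₀ y) (law F) := fun a y => X_integrable hd a ht₀ y
  have hi2 : ∀ (a : Pt) (y : ℤ), Integrable (fun η => X F d η a (p + t₀) y) (law F) := fun a y => X_integrable hd a (by omega) y
  have hi3 : Integrable (fun η => ∑ k ∈ Finset.range K, X F d η ((k : ℤ) * p, x k) (p + t₀) (x (k + 1) + ξ - x k)) (law F) :=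
    integrable_finsetSum (Finset.range K) fun k _ => hi2 ((k : ℤ) * p, x k) (x (k + 1) + ξ - x k)
  have hi4 : Integrable (fun η => ∑ k ∈ Finset.range (K + 1), X F d η ((k : ℤ) * p, x k) t₀ ξ) (law F) :=
    integrable_finsetSum (Finset.range (K + 1)) fun k _ => hi1 ((k : ℤ) * p, x k) ξ
  have hl : ∫ η, (X F d η 0 t₀ (x 0 + ξ) + ∑ k ∈ Finset.range K, X F d η ((k : ℤ) * p, x k) (p + t₀) (x (k + 1) + ξ - x k) +
      X F d η ((K : ℤ) * p, x K) t₀ (Z - x K)) ∂(law F) =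
      e F d t₀ (x 0 + ξ) + ∑ k ∈ Finset.range K, e F d (p + t₀) (x (k + 1) + ξ - x k) + e F d t₀ (Z - x K) := by
    have hi5 : Integrable (fun η => X F d η 0 t₀ (x 0 + ξ) +
        ∑ k ∈ Finset.range K, X F d η ((k : ℤ) * p, x k) (p + t₀) (x (k + 1) + ξ - x k)) (law F) := (hi1 _ _).add hi3
    rw [integral_add hi5 (hi1 _ _), integral_add (hi1 _ _) hi3,
      integral_finsetSum _ fun (k : ℕ) _ => hi2 ((k : ℤ) * p, x k) (x (k + 1) + ξ - x k)]
    simp only [X_mean]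
  have hr : ∫ η, (XT F (wv d r) D η 0 T Z + ∑ k ∈ Finset.range (K + 1), X F d η ((k : ℤ) * p, x k) t₀ ξ) ∂(law F) =
      ∫ η, XT F (wv d r) D η 0 T Z ∂(law F) + (K + 1) * e F d t₀ ξ := by
    rw [integral_add (XT_integrable14 ne) hi4, integral_finsetSum _ fun (k : ℕ) _ => hi1 ((k : ℤ) * p, x k) ξ]
    simp only [X_mean]
    rw [Finset.sum_const, Finset.card_range, nsmul_eq_mul]
    push_cast
    ring
  have hm : ∫ η, (X F d η 0 t₀ (x 0 + ξ) + ∑ k ∈ Finset.range K, X F d η ((k : ℤ) * p, x k) (p + t₀) (x (k + 1) + ξ - x k) +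
      X F d η ((K : ℤ) * p, x K) t₀ (Z - x K)) ∂(law F) ≤
      ∫ η, (XT F (wv d r) D η 0 T Z + ∑ k ∈ Finset.range (K + 1), X F d η ((k : ℤ) * p, x k) t₀ ξ) ∂(law F) :=
    integral_mono (((hi1 _ _).add hi3).add (hi1 _ _)) ((XT_integrable14 ne).add hi4) hpath
  rw [hl, hr] at hm
  exact hm

/-- The record trick in the mean. -/
theorem rec_mean (hd : Adm F κ d) {r D : ℝ} {K p t₀ T : ℕ} (ht₀ : 1 ≤ t₀) (hp : t₀ + 1 ≤ p) (hT : T = K * p + t₀) {Z ξ : ℤ}
    {sg : ℤ} (hsg : sg = 1 ∨ sg = -1) (hD : 0 < D) (hξ : 2 * D + C14 F r ≤ sg * (r * t₀ - ξ)) (ne : HasT F (wv d r) D T Z) :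
    ∃ (y₀ yK : ℤ) (y : ℕ → ℤ), e F d t₀ y₀ + ∑ k ∈ Finset.range K, e F d (p + t₀) (y k) + e F d t₀ yK ≤
      ∫ η, XT F (wv d r) D η 0 T Z ∂(law F) + (K + 1) * e F d t₀ ξ :=
  ⟨_, _, _, rec_gen hd ht₀ hp hT hsg hD le_rfl hξ ne (x := fun k => ⌊r * ((k : ℤ) * p : ℤ) + sg * (D + C14 F r / 2)⌋)
    fun _ => rfl⟩

/-- **THE RECORD TRICK.** -/
theorem rec14 (hd : Adm F κ d) {ρ : ℕ} (hρ : 2 ≤ ρ) : Em F d (2 * ρ) = Em F d ρ ∨ ∃ m : ℕ, ρ < m ∧ m ≤ 2 * ρ ∧
    Em F d (2 * ρ) = e F d m (xs F d m) + Cr F ∧ ∀ (r D : ℝ) (sg : ℤ) (K T : ℕ) (Z : ℤ), (sg = 1 ∨ sg = -1) → 0 < D →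
      1 ≤ K → 2 * D + C14 F r ≤ sg * (r * ((m - 1) / 2 : ℕ) - xs F d ((m - 1) / 2)) →
      T = K * (m - (m - 1) / 2) + (m - 1) / 2 → HasT F (wv d r) D T Z →
      K * (Em F d (2 * ρ) - Em F d ρ) + Em F d ρ ≤ ∫ η, XT F (wv d r) D η 0 T Z ∂(law F) + Cr F := by
  obtain ⟨m, hm, hE⟩ : ∃ m, m ≤ 2 * ρ ∧ Em F d (2 * ρ) = e F d m (xs F d m) + Cr F := by
    obtain ⟨m, hm, h⟩ := Finset.exists_mem_eq_sup' (Finset.nonempty_range_add_one (n := 2 * ρ)) (fun m => e F d m (xs F d m))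
    refine ⟨m, Nat.lt_succ_iff.1 (Finset.mem_range.1 hm), ?_⟩
    unfold Em
    rw [h]
    ring
  by_cases h : m ≤ ρ
  · left
    refine le_antisymm ?_ (Em_mono F d (by omega))
    rw [hE]
    exact le_Em F d h
  right
  push Not at h
  refine ⟨m, h, hm, hE, fun r D sg K T Z hsg hD hK hξ hT ne => ?_⟩
  obtain ⟨t₀, ht⟩ : ∃ t₀, t₀ = (m - 1) / 2 := ⟨_, rfl⟩
  rw [← ht] at hξ hT
  obtain ⟨p, hp⟩ : ∃ p, p = m - t₀ := ⟨_, rfl⟩
  rw [← hp] at hT
  have hpt : p + t₀ = m := by omega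
  obtain ⟨y₀, yK, y, hmain⟩ := rec_mean hd (p := p) (by omega) (by omega) hT hsg hD hξ ne
  rw [hpt] at hmain
  have h1 := xs_le hd (n := t₀) (by omega) y₀
  have h2 := xs_le hd (n := t₀) (by omega) yK
  have h3 : (K : ℝ) * e F d m (xs F d m) ≤ ∑ k ∈ Finset.range K, e F d m (y k) := by
    have h4 : ∑ _k ∈ Finset.range K, e F d m (xs F d m) ≤ ∑ k ∈ Finset.range K, e F d m (y k) :=
      Finset.sum_le_sum fun k _ => xs_le hd (by omega) (y k)
    rwa [Finset.sum_const, Finset.card_range, nsmul_eq_mul] at h4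
  have h4 := le_Em F d (show t₀ ≤ ρ by omega)
  have h5 : e F d m (xs F d m) = Em F d (2 * ρ) - Cr F := by rw [hE]; ring
  rw [h5] at h3
  have hK1 : (1 : ℝ) ≤ K := by exact_mod_cast hK
  have h6 : ((K : ℝ) - 1) * e F d t₀ (xs F d t₀) ≤ (K - 1) * (Em F d ρ - Cr F) :=
    mul_le_mul_of_nonneg_left (by linarith) (by linarith)
  linarith

end Pool.Agent.W_1b8d5d_h14
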