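import Pool.Agent.W_1b8d5d_h14.RecB14
import Pool.Agent.W_1b8d5d_p.HfP99

/-!
MP_1b8d5d_pr, Track P: the record trick in the form `RecHS` of helper99 (the slopes bounded by `S`).
-/

set_option autoImplicit false

namespace Pool.Agent.W_1b8d5d_h14

open MeasureTheory Set
open Pool.Agent.W_1b8d5d_h85 Pool.Agent.W_1b8d5d_p Pool.Agent.W_1b8d5d_h57p

/-- **(REC)**, the slopes at most `S`: references of duration `t` and of the cheapest displacement, pieces of duration `p + t`. -/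
def RecHS (F : Fm) (Ds : Set Dr) : Prop :=
  ∀ S : ℝ, ∃ C : ℝ, 0 ≤ C ∧ ∀ d ∈ Ds, ∀ (s D σ : ℝ) (t p k : ℕ) (Z : ℤ), |s| ≤ S → 0 < D → σ = 1 ∨ σ = -1 → 1 ≤ t → t + 1 ≤ p →
    1 ≤ k → 2 * D + C ≤ σ * (s * t - xs F d t) → HasT F (wv d s) D (k * p + t) Z →
    ∃ xx : ℕ → ℤ, (∀ i : ℕ, |(xx i : ℝ) - (s * (i * p) + σ * (D + C / 2))| ≤ 1) ∧
      ∑ i ∈ Finset.range k, e F d (p + t) (xx (i + 1) + xs F d t - xx i) ≤
        ∫ η, XT F (wv d s) D η 0 (k * p + t) Z ∂(law F) + (k - 1) * e F d t (xs F d t)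

variable {F : Fm} {κ : ℝ} {Ds : Set Dr}

theorem recH14 (hd : ∀ d ∈ Ds, Adm F κ d) : RecHS F Ds := by
  intro S
  have hm := m14_nonneg F.co
  have hm' : (0 : ℝ) ≤ m14 F.co := by exact_mod_cast hm
  refine ⟨2 * (m14 F.co + 2 + |S|), by positivity, fun d hdd s D σ t p k Z hs hD hσ ht hp hk hside ne => ?_⟩
  have hd := hd d hdd
  obtain ⟨C, hC⟩ : ∃ C : ℝ, C = 2 * (m14 F.co + 2 + |S|) := ⟨_, rfl⟩
  rw [← hC] at hside ⊢
  have hCs : C14 F s ≤ C := by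
    have h1 : C14 F s = 2 * (m14 F.co + 2 + |s|) := rfl
    have h2 := le_abs_self S
    rw [h1, hC]
    linarith
  obtain ⟨sg, hsg, hsσ⟩ : ∃ sg : ℤ, (sg = 1 ∨ sg = -1) ∧ σ = (sg : ℝ) := by
    rcases hσ with h | h
    · exact ⟨1, Or.inl rfl, by rw [h]; norm_num⟩
    · exact ⟨-1, Or.inr rfl, by rw [h]; norm_num⟩
  rw [hsσ] at hside ⊢
  have hgen := rec_gen hd ht hp (T := k * p + t) rfl hsg hD hCs hside ne
    (x := fun i => ⌊s * ((i : ℤ) * p : ℤ) + sg * (D + C / 2)⌋) fun _ => rfl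
  refine ⟨fun i => ⌊s * ((i : ℤ) * p : ℤ) + sg * (D + C / 2)⌋, fun i => ?_, ?_⟩
  · have h1 := Int.floor_le (s * ((i : ℤ) * p : ℤ) + sg * (D + C / 2))
    have h2 := Int.lt_floor_add_one (s * ((i : ℤ) * p : ℤ) + sg * (D + C / 2))
    rw [abs_le]
    beta_reduce
    push_cast at h1 h2 ⊢
    constructor <;> linarith
  · have h1 := xs_le hd ht (⌊s * (((0 : ℕ) : ℤ) * p : ℤ) + sg * (D + C / 2)⌋ + xs F d t)
    have h2 := xs_le hd ht (Z - ⌊s * ((k : ℤ) * p : ℤ) + sg * (D + C / 2)⌋)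
    beta_reduce at hgen ⊢
    linarith

end Pool.Agent.W_1b8d5d_h14
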