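import Pool.Agent.W_1b8d5d_h14.RecB14
import Pool.Agent.W_1b8d5d_h52p.OctP

/-!
MP_1b8d5d_pr, Track P, D4 (proofs row 646, section 2): the record trick in the form `RecP` of the octave.
-/

set_option autoImplicit false

namespace Pool.Agent.W_1b8d5d_h14

open MeasureTheory Set
open Pool.Agent.W_1b8d5d_h85 Pool.Agent.W_1b8d5d_p Pool.Agent.W_1b8d5d_h57p

variable {F : Fm} {κ Kv : ℝ} {Ds : Set Dr}

/-- **The record trick, the form of the octave.** -/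
theorem recP14 (h : Dirs F κ Kv Ds) : Pool.Agent.W_1b8d5d_h52p.RecP F Ds := by
  refine ⟨2 * (m14 F.co + 2 + (|Kv| + 1)), 2, fun d hd ρ hρ => ?_⟩
  rcases rec14 (h.adm d hd) hρ with h1 | ⟨m0, hm1, hm2, -, h2⟩
  · exact Or.inl h1
  refine Or.inr ⟨m0, hm1, hm2, fun sg u D hsg hu hD hξ K Z hK ne => ?_⟩
  obtain ⟨s, hs, hsσ⟩ : ∃ s : ℤ, (s = 1 ∨ s = -1) ∧ sg = (s : ℝ) := by
    rcases hsg with h | h
    · exact ⟨1, Or.inl rfl, by rw [h]; norm_num⟩
    · exact ⟨-1, Or.inr rfl, by rw [h]; norm_num⟩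
  rw [hsσ] at hξ
  refine h2 (d.v + u) D s K _ Z hs hD hK (le_trans ?_ hξ) rfl ne
  have h3 : C14 F (d.v + u) = 2 * (m14 F.co + 2 + |d.v + u|) := rfl
  have h4 := h.slope d hd
  have h5 := le_abs_self Kv
  have h6 := abs_add_le d.v u
  rw [h3]
  linarith

end Pool.Agent.W_1b8d5d_h14
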