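import Pool.Agent.W_1b8d5d_p.Cross
import Pool.Agent.W_1b8d5d_sc.FWalk

/-!
MP_1b8d5d_pr, Track P, D4 (proofs row 646, section 2), exact uncrossing. Part 1: a walk which crosses a strip of times meets the
reference; the pieces of the walk before and after the meeting point (`gc`). The vertices of a walk as a sequence (`path_idx`).
-/

set_option autoImplicit false

namespace Pool.Agent.W_1b8d5d_h14

open MeasureTheory Set
open Pool.Agent.W_1b8d5d_h85 Pool.Agent.W_1b8d5d_p
open Pool.Agent.W_1b8d5d_sc (split_first split_last)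

/-- The edge lies in the closed lower half and is not a part of the boundary. -/
def LowE (f : V → ℤ) (hi : ℤ) (e : Edge) : Prop := f e.1 ≤ hi ∧ f (e.1 + dir e.2) ≤ hi ∧ (f e.1 < hi ∨ f (e.1 + dir e.2) < hi)

/-- The edge lies in the closed upper half and is not a part of the boundary. -/
def HighE (f : V → ℤ) (lo : ℤ) (e : Edge) : Prop := lo ≤ f e.1 ∧ lo ≤ f (e.1 + dir e.2) ∧ (lo < f e.1 ∨ lo < f (e.1 + dir e.2))

theorem low_of {f : V → ℤ} {hi : ℤ} {x y : V} (w : grid.Walk x y) (u : V) (h : ∀ z ∈ w.support, f z ≤ hi)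
    (h' : ∀ z ∈ w.support, f z = hi → z = u) : ∀ e ∈ wedges w, LowE f hi e := by
  intro e he
  obtain ⟨h1, h2⟩ := wedges_support w he
  have h3 := add_dir_ne e.1 e.2
  refine ⟨h _ h1, h _ h2, ?_⟩
  by_contra hcon
  push Not at hcon
  exact h3 ((h' _ h2 (le_antisymm (h _ h2) hcon.2)).trans (h' _ h1 (le_antisymm (h _ h1) hcon.1)).symm)

theorem high_of {f : V → ℤ} {lo : ℤ} {x y : V} (w : grid.Walk x y) (u : V) (h : ∀ z ∈ w.support, lo ≤ f z)
    (h' : ∀ z ∈ w.support, f z = lo → z = u) : ∀ e ∈ wedges w, HighE f lo e := by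
  intro e he
  obtain ⟨h1, h2⟩ := wedges_support w he
  have h3 := add_dir_ne e.1 e.2
  refine ⟨h _ h1, h _ h2, ?_⟩
  by_contra hcon
  push Not at hcon
  exact h3 ((h' _ h2 (le_antisymm hcon.2 (h _ h2))).trans (h' _ h1 (le_antisymm hcon.1 (h _ h1))).symm)

/-- **The first crossing of a strip.** `Qs` = the vertices of the reference. -/
theorem gc {f : V → ℤ} {lo hi : ℤ} (hlh : lo < hi) (hjump : ∀ u v : V, grid.Adj u v → f u ≤ lo → f v < hi) {x y : V}
    (P : grid.Walk x y) (hx : f x ≤ lo) (hy : ∃ z ∈ P.support, hi ≤ f z) {Qs : V → Prop}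
    (hQ : ∀ z, Qs z → lo ≤ f z ∧ f z ≤ hi)
    (hmeet : ∀ (v u : V) (R : grid.Walk v u), (∀ z ∈ R.support, z ∈ P.support) → f v ≤ lo → hi ≤ f u →
      (∀ z ∈ R.support, (f z ≤ lo → z = v) ∧ (hi ≤ f z → z = u)) → ∃ z ∈ R.support, Qs z) :
    ∃ (z u : V) (Wa : grid.Walk x z) (Wb : grid.Walk z u) (W2 : grid.Walk u y), Qs z ∧ hi ≤ f u ∧
      P = Wa.append (Wb.append W2) ∧ (∀ e ∈ wedges Wa, LowE f hi e) ∧ (∀ e ∈ wedges Wb, HighE f lo e) ∧
      W2.length < P.length := by
  classical
  obtain ⟨x', u, w₁, h, w₂, hP, hw₁, hu⟩ := split_first (fun z => hi ≤ f z) P (by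
    show ¬ hi ≤ f x
    omega) hy
  have hw₁' : ∀ z ∈ w₁.support, f z < hi := fun z hz => not_le.1 (hw₁ z hz)
  have hx' : lo < f x' := by
    by_contra hcon
    have := hjump x' u h (not_lt.1 hcon)
    exact absurd hu (not_le.2 this)
  obtain ⟨v, v', w₁a, h', R0, hw, hR0, hv⟩ := split_last (fun z => lo < f z) w₁ ⟨x, w₁.start_mem_support, by
    show ¬ lo < f x
    omega⟩ hx'
  have hv' : f v ≤ lo := not_lt.1 hv
  have hR0hi : ∀ z ∈ R0.support, f z < hi := by
    intro z hz
    refine hw₁' z ?_
    rw [hw, SimpleGraph.Walk.mem_support_append_iff, SimpleGraph.Walk.support_cons, List.mem_cons]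
    exact Or.inr (Or.inr hz)
  have hw₁a : ∀ z ∈ w₁a.support, f z < hi := by
    intro z hz
    refine hw₁' z ?_
    rw [hw, SimpleGraph.Walk.mem_support_append_iff]
    exact Or.inl hz
  have hsupR : ∀ z ∈ (SimpleGraph.Walk.cons h' (R0.append (SimpleGraph.Walk.cons h .nil))).support,
      z = v ∨ z ∈ R0.support ∨ z = u := by
    intro z hz
    rw [SimpleGraph.Walk.support_cons, List.mem_cons, SimpleGraph.Walk.mem_support_append_iff,
      SimpleGraph.Walk.support_cons, List.mem_cons, SimpleGraph.Walk.support_nil, List.mem_singleton] at hz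
    rcases hz with h1 | h1 | h1 | h1
    · exact Or.inl h1
    · exact Or.inr (Or.inl h1)
    · exact Or.inr (Or.inl (h1 ▸ R0.end_mem_support))
    · exact Or.inr (Or.inr h1)
  have hPs : ∀ z, z = v ∨ z ∈ R0.support ∨ z = u → z ∈ P.support := by
    intro z hz
    rw [hP, SimpleGraph.Walk.mem_support_append_iff]
    rcases hz with rfl | h1 | rfl
    · left
      rw [hw, SimpleGraph.Walk.mem_support_append_iff]
      exact Or.inl (SimpleGraph.Walk.end_mem_support _)
    · left
      rw [hw, SimpleGraph.Walk.mem_support_append_iff, SimpleGraph.Walk.support_cons, List.mem_cons]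
      exact Or.inr (Or.inr h1)
    · right
      rw [SimpleGraph.Walk.support_cons, List.mem_cons]
      exact Or.inr (SimpleGraph.Walk.start_mem_support _)
  obtain ⟨z, hz, hQz⟩ := hmeet v u _ (fun z hz => hPs z (hsupR z hz)) hv' hu (by
    intro z hz
    rcases hsupR z hz with h1 | h1 | h1
    · refine ⟨fun _ => h1, fun h2 => ?_⟩
      rw [h1] at h2
      omega
    · have h2 := hR0 z h1
      have h3 := hR0hi z h1
      constructor
      · intro h4
        exact absurd h4 (not_le.2 h2)
      · intro h4
        exact absurd h4 (not_le.2 h3)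
    · refine ⟨fun h2 => ?_, fun _ => h1⟩
      rw [h1] at h2
      omega)
  have hzb := hQ z hQz
  have hlen : w₂.length < P.length := by
    rw [hP, SimpleGraph.Walk.length_append, SimpleGraph.Walk.length_cons]
    omega
  rcases hsupR z hz with h1 | h1 | h1
  · -- the meeting point is `v`
    subst h1
    refine ⟨z, u, w₁a, .cons h' (R0.append (.cons h .nil)), w₂, hQz, hu, ?_, ?_, ?_, hlen⟩
    · rw [hP, hw]
      simp only [SimpleGraph.Walk.cons_append, SimpleGraph.Walk.nil_append, ← SimpleGraph.Walk.append_assoc]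
    · refine low_of w₁a z (fun q hq => (hw₁a q hq).le) fun q hq hq' => ?_
      have := hw₁a q hq
      omega
    · refine high_of _ z (fun q hq => ?_) fun q hq hq' => ?_
      · rcases hsupR q hq with h2 | h2 | h2
        · rw [h2]
          exact hzb.1
        · exact (hR0 q h2).le
        · rw [h2]
          exact (hlh.trans_le hu).le
      · rcases hsupR q hq with h2 | h2 | h2
        · exact h2
        · have := hR0 q h2
          omega
        · rw [h2] at hq'
          omega
  · -- the meeting point is inside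
    obtain ⟨Ra, Rb, hR⟩ : ∃ (Ra : grid.Walk v' z) (Rb : grid.Walk z x'), R0 = Ra.append Rb :=
      ⟨R0.takeUntil z h1, R0.dropUntil z h1, (R0.take_spec h1).symm⟩
    have hRa : ∀ q ∈ Ra.support, q ∈ R0.support := fun q hq => by
      rw [hR, SimpleGraph.Walk.mem_support_append_iff]
      exact Or.inl hq
    have hRb : ∀ q ∈ Rb.support, q ∈ R0.support := fun q hq => by
      rw [hR, SimpleGraph.Walk.mem_support_append_iff]
      exact Or.inr hq
    refine ⟨z, u, w₁a.append (.cons h' Ra), Rb.append (.cons h .nil), w₂, hQz, hu, ?_, ?_, ?_, hlen⟩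
    · rw [hP, hw, hR]
      simp only [SimpleGraph.Walk.cons_append, SimpleGraph.Walk.nil_append, ← SimpleGraph.Walk.append_assoc]
    · have hall : ∀ q ∈ (w₁a.append (.cons h' Ra)).support, f q < hi := by
        intro q hq
        rw [SimpleGraph.Walk.mem_support_append_iff, SimpleGraph.Walk.support_cons, List.mem_cons] at hq
        rcases hq with h2 | h2 | h2
        · exact hw₁a q h2
        · rw [h2]
          omega
        · exact hR0hi q (hRa q h2)
      refine low_of _ z (fun q hq => (hall q hq).le) fun q hq hq' => ?_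
      have := hall q hq
      omega
    · have hall : ∀ q ∈ (Rb.append (.cons h .nil)).support, lo < f q := by
        intro q hq
        rw [SimpleGraph.Walk.mem_support_append_iff, SimpleGraph.Walk.support_cons, List.mem_cons,
          SimpleGraph.Walk.support_nil, List.mem_singleton] at hq
        rcases hq with h2 | h2 | h2
        · exact hR0 q (hRb q h2)
        · rw [h2]
          exact hx'
        · rw [h2]
          exact hlh.trans_le hu
      refine high_of _ z (fun q hq => (hall q hq).le) fun q hq hq' => ?_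
      have := hall q hq
      omega
  · -- the meeting point is `u`
    subst h1
    refine ⟨z, z, w₁a.append (.cons h' (R0.append (.cons h .nil))), .nil, w₂, hQz, hu, ?_, ?_, ?_, hlen⟩
    · rw [hP, hw]
      simp only [SimpleGraph.Walk.cons_append, SimpleGraph.Walk.nil_append, ← SimpleGraph.Walk.append_assoc]
    · refine low_of _ z (fun q hq => ?_) fun q hq hq' => ?_
      · rw [SimpleGraph.Walk.mem_support_append_iff] at hq
        rcases hq with h2 | h2
        · exact (hw₁a q h2).le
        · rcases hsupR q h2 with h3 | h3 | h3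
          · rw [h3]
            omega
          · exact (hR0hi q h3).le
          · rw [h3]
            exact hzb.2
      · rw [SimpleGraph.Walk.mem_support_append_iff] at hq
        rcases hq with h2 | h2
        · have := hw₁a q h2
          omega
        · rcases hsupR q h2 with h3 | h3 | h3
          · rw [h3] at hq'
            omega
          · have := hR0hi q h3
            omega
          · exact h3
    · intro e he
      simp [wedges] at he

/-- The vertices and the edges of a walk as sequences. -/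
theorem path_idx (τ : Env) {s t : V} (Q : grid.Walk s t) : ∃ (l : ℕ) (q : ℕ → V) (w : ℕ → ℝ), q 0 = s ∧ q l = t ∧
    (∀ z ∈ Q.support, ∃ j ≤ l, q j = z) ∧ ∑ i ∈ Finset.range l, w i = cost τ Q ∧
    ∀ i, ∃ W : grid.Walk (q i) (q (i + 1)), cost τ W = w i ∧ ∀ e ∈ wedges W, e ∈ wedges Q := by
  induction Q with
  | @nil x =>
    refine ⟨0, fun _ => x, fun _ => 0, rfl, rfl, fun z hz => ?_, by simp [cost, wedges], fun i => ⟨.nil, by simp [cost, wedges],
      fun e he => ?_⟩⟩
    · rw [SimpleGraph.Walk.support_nil, List.mem_singleton] at hz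
      exact ⟨0, le_rfl, hz.symm⟩
    · simp [wedges] at he
  | @cons x v y h Q ih =>
    obtain ⟨l, q, w, h0, hl, hs, hsum, hW⟩ := ih
    obtain ⟨q', hq'⟩ : ∃ q' : ℕ → V, (q' 0 = x) ∧ ∀ i, q' (i + 1) = q i := ⟨fun i => Nat.casesOn i x fun i => q i, rfl, fun _ => rfl⟩
    obtain ⟨w', hw'⟩ : ∃ w' : ℕ → ℝ, (w' 0 = cost τ (SimpleGraph.Walk.cons h .nil : grid.Walk x v)) ∧ ∀ i, w' (i + 1) = w i :=
      ⟨fun i => Nat.casesOn i (cost τ (SimpleGraph.Walk.cons h .nil : grid.Walk x v)) fun i => w i, rfl, fun _ => rfl⟩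
    have hcons : SimpleGraph.Walk.cons h Q = (SimpleGraph.Walk.cons h .nil : grid.Walk x v).append Q := rfl
    refine ⟨l + 1, q', w', hq'.1, (hq'.2 l).trans hl, fun z hz => ?_, ?_, fun i => ?_⟩
    · rw [SimpleGraph.Walk.support_cons, List.mem_cons] at hz
      rcases hz with rfl | hz
      · exact ⟨0, by omega, hq'.1⟩
      · obtain ⟨j, hj, e⟩ := hs z hz
        exact ⟨j + 1, by omega, (hq'.2 j).trans e⟩
    · rw [Finset.sum_range_succ', hw'.1, hcons, cost_append, ← hsum]
      rw [Finset.sum_congr rfl fun i _ => hw'.2 i]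
      ring
    · rcases i with _ | i
      · rw [hq'.1, hq'.2 0, h0]
        refine ⟨.cons h .nil, hw'.1.symm, fun e he => ?_⟩
        rw [hcons, wedges_append, List.mem_append]
        exact Or.inl he
      · rw [hq'.2, hq'.2]
        obtain ⟨W, hW1, hW2⟩ := hW i
        refine ⟨W, hW1.trans (hw'.2 i).symm, fun e he => ?_⟩
        rw [hcons, wedges_append, List.mem_append]
        exact Or.inr (hW2 e he)

end Pool.Agent.W_1b8d5d_h14
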