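import Pool.Agent.W_1b8d5d_h14.UncA14
import Pool.Agent.W_1b8d5d_p.FrLaw
import Pool.Agent.W_1b8d5d_h14.Par14

/-!
MP_1b8d5d_pr, Track P, D4 (proofs row 646, section 2), exact uncrossing. Part 2: the alternating decomposition of the walk at its
crossings of the strip of the reference (`dec`), and **the exact uncrossing** (`unc`), returns included, no error.
-/

set_option autoImplicit false

namespace Pool.Agent.W_1b8d5d_h14

open MeasureTheory Set
open Pool.Agent.W_1b8d5d_h85 Pool.Agent.W_1b8d5d_p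

variable {c : Co} {a b : ℝ} {τ : Env} {S : Set Edge} {A B α β : ℤ}

theorem mem_low (hS : S ⊆ c.sl A B) {e : Edge} (he : e ∈ S) (h : LowE c.tm β e) : e ∈ c.sl A β := by
  have h1 := hS he
  have h2 := c.tm_edge e
  refine ⟨h1.1, h.2.1, ?_, h1.2.2.2⟩
  rcases h.2.2 with h3 | h3
  · exact h3
  · exact h2.1.trans_lt h3

theorem mem_high (hS : S ⊆ c.sl A B) {e : Edge} (he : e ∈ S) (h : HighE c.tm α e) : e ∈ c.sl α B := by
  have h1 := hS he
  have h2 := c.tm_edge e
  refine ⟨h.1, h1.2.1, h1.2.2.1, ?_⟩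
  rcases h.2.2 with h3 | h3
  · exact h3.trans_le h2.1
  · exact h3

/-- **The alternating decomposition.** `Lp` = the arcs above, `Lm` = the arcs below. -/
theorem dec (hτ : Bd a b τ) (ha : 0 ≤ a) (hS : S ⊆ c.sl A B) (hαβ : α + c.M < β) {l : ℕ} {q : ℕ → V} {Qs T : V → Prop}
    (hQs : ∀ z, Qs z → ∃ j ≤ l, q j = z) (hQb : ∀ z, Qs z → α ≤ c.tm z ∧ c.tm z ≤ β)
    (hmeet : ∀ (v u : V) (R : grid.Walk v u), (∀ z ∈ R.support, T z) → c.tm v ≤ α → β ≤ c.tm u →
      (∀ z ∈ R.support, (c.tm z ≤ α → z = v) ∧ (β ≤ c.tm z → z = u)) → ∃ z ∈ R.support, Qs z) :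
    ∀ (n : ℕ) (x y : V) (P : grid.Walk x y), P.length < n → (∀ e ∈ wedges P, e ∈ S) → (∀ z ∈ P.support, T z) →
      c.tm x ≤ α → β ≤ c.tm y →
      ∃ (z₁ zl : ℕ) (Lp Lm : List (ℕ × ℕ)) (Wa : grid.Walk x (q z₁)) (Wb : grid.Walk (q zl) y), z₁ ≤ l ∧ zl ≤ l ∧
        (∀ p ∈ Lp, p.1 ≤ l ∧ p.2 ≤ l) ∧ (∀ p ∈ Lm, p.1 ≤ l ∧ p.2 ≤ l) ∧ (∀ e ∈ wedges Wa, e ∈ c.sl A β) ∧
        (∀ e ∈ wedges Wb, e ∈ S ∩ c.sl α B) ∧
        cost τ Wa + (Lp.map fun p => TR ((S ∪ c.sl α β) ∩ c.sl α B) τ (q p.1) (q p.2)).sum +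
          (Lm.map fun p => TR (c.sl A β) τ (q p.1) (q p.2)).sum + cost τ Wb ≤ cost τ P ∧
        ∀ i, c1 i z₁ + cn i Lm = c1 i zl + cn i Lp := by
  intro n
  induction n with
  | zero =>
    intro x y P hP
    exact absurd hP (Nat.not_lt_zero _)
  | succ n ih =>
    intro x y P hlen hPS hPT hx hy
    obtain ⟨z, u, Wa, Wb, W2, hz, hu, hPeq, hlow, hhigh, hW2⟩ := gc (f := c.tm) (lo := α) (hi := β) (by
        have := c.M_pos
        omega) (fun u v h hu => by
          have := Pool.Agent.W_1b8d5d_p.tm_adj c h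
          omega) P hx ⟨y, P.end_mem_support, hy⟩ hQb
      (fun v u R hR h1 h2 h3 => hmeet v u R (fun z hz => hPT z (hR z hz)) h1 h2 h3)
    obtain ⟨j, hj, rfl⟩ := hQs z hz
    have hWaS : ∀ e ∈ wedges Wa, e ∈ S := fun e he => hPS e (by
      rw [hPeq, wedges_append, List.mem_append]
      exact Or.inl he)
    have hWbS : ∀ e ∈ wedges Wb, e ∈ S := fun e he => hPS e (by
      rw [hPeq, wedges_append, wedges_append, List.mem_append, List.mem_append]
      exact Or.inr (Or.inl he))
    have hW2S : ∀ e ∈ wedges W2, e ∈ S := fun e he => hPS e (by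
      rw [hPeq, wedges_append, wedges_append, List.mem_append, List.mem_append]
      exact Or.inr (Or.inr he))
    have hW2T : ∀ z ∈ W2.support, T z := fun z hz => hPT z (by
      rw [hPeq, SimpleGraph.Walk.mem_support_append_iff, SimpleGraph.Walk.mem_support_append_iff]
      exact Or.inr (Or.inr hz))
    have hWal : ∀ e ∈ wedges Wa, e ∈ c.sl A β := fun e he => mem_low hS (hWaS e he) (hlow e he)
    have hWbh : ∀ e ∈ wedges Wb, e ∈ S ∩ c.sl α B := fun e he => ⟨hWbS e he, mem_high hS (hWbS e he) (hhigh e he)⟩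
    have hcost : cost τ P = cost τ Wa + (cost τ Wb + cost τ W2) := by rw [hPeq, cost_append, cost_append]
    by_cases hret : ∃ z ∈ W2.support, c.tm z ≤ α
    · -- the walk comes back
      obtain ⟨z', v, Wa', Wb', W3, hz', hv, hW2eq, hlow', hhigh', hW3⟩ := gc (f := fun z => -c.tm z) (lo := -β) (hi := -α) (by
          have := c.M_pos
          omega) (fun u v h hu => by
            have := Pool.Agent.W_1b8d5d_p.tm_adj c h
            show -c.tm v < -α
            have hu' : -c.tm u ≤ -β := hu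
            omega) W2 (by
            show -c.tm u ≤ -β
            omega) (by
            obtain ⟨z, hz, h⟩ := hret
            exact ⟨z, hz, by
              show -α ≤ -c.tm z
              omega⟩) (Qs := Qs) (fun z hz => by
            have := hQb z hz
            exact ⟨by show -β ≤ -c.tm z; omega, by show -c.tm z ≤ -α; omega⟩)
        (fun v u R hR h1 h2 h3 => by
          have h1' : -c.tm v ≤ -β := h1
          have h2' : -α ≤ -c.tm u := h2
          obtain ⟨z, hz, hzQ⟩ := hmeet u v R.reverse (fun z hz => hW2T z (hR z (by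
            rwa [SimpleGraph.Walk.support_reverse, List.mem_reverse] at hz))) (by omega) (by omega) (fun z hz => by
              rw [SimpleGraph.Walk.support_reverse, List.mem_reverse] at hz
              have h4 := h3 z hz
              constructor
              · intro h5
                exact h4.2 (by show -α ≤ -c.tm z; omega)
              · intro h5
                exact h4.1 (by show -c.tm z ≤ -β; omega))
          exact ⟨z, by rwa [SimpleGraph.Walk.support_reverse, List.mem_reverse] at hz, hzQ⟩)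
      have hv' : c.tm v ≤ α := by
        have : -α ≤ -c.tm v := hv
        omega
      obtain ⟨j', hj', rfl⟩ := hQs z' hz'
      have hWa'S : ∀ e ∈ wedges Wa', e ∈ S := fun e he => hW2S e (by
        rw [hW2eq, wedges_append, List.mem_append]
        exact Or.inl he)
      have hWb'S : ∀ e ∈ wedges Wb', e ∈ S := fun e he => hW2S e (by
        rw [hW2eq, wedges_append, wedges_append, List.mem_append, List.mem_append]
        exact Or.inr (Or.inl he))
      have hW3S : ∀ e ∈ wedges W3, e ∈ S := fun e he => hW2S e (by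
        rw [hW2eq, wedges_append, wedges_append, List.mem_append, List.mem_append]
        exact Or.inr (Or.inr he))
      have hW3T : ∀ z ∈ W3.support, T z := fun z hz => hW2T z (by
        rw [hW2eq, SimpleGraph.Walk.mem_support_append_iff, SimpleGraph.Walk.mem_support_append_iff]
        exact Or.inr (Or.inr hz))
      have hWa'h : ∀ e ∈ wedges Wa', e ∈ S ∩ c.sl α B := fun e he => ⟨hWa'S e he, mem_high hS (hWa'S e he) (by
        have h1 := hlow' e he
        obtain ⟨h2, h3, h4⟩ := h1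
        refine ⟨by simp only at h2; omega, by simp only at h3; omega, ?_⟩
        rcases h4 with h4 | h4
        · left
          simp only at h4
          omega
        · right
          simp only at h4
          omega)⟩
      have hWb'l : ∀ e ∈ wedges Wb', e ∈ c.sl A β := fun e he => mem_low hS (hWb'S e he) (by
        have h1 := hhigh' e he
        obtain ⟨h2, h3, h4⟩ := h1
        refine ⟨by simp only at h2; omega, by simp only at h3; omega, ?_⟩
        rcases h4 with h4 | h4
        · left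
          simp only at h4
          omega
        · right
          simp only at h4
          omega)
      have hcost2 : cost τ W2 = cost τ Wa' + (cost τ Wb' + cost τ W3) := by rw [hW2eq, cost_append, cost_append]
      obtain ⟨z₁, zl, Lp, Lm, Wc, Wd, g1, g2, g3, g4, g5, g6, g7, g8⟩ := ih v y W3 (by omega) hW3S hW3T hv' hy
      have hp : TR ((S ∪ c.sl α β) ∩ c.sl α B) τ (q j) (q j') ≤ cost τ Wb + cost τ Wa' := by
        rw [← cost_append]
        refine TR_le hτ ha _ fun e he => ?_
        rw [wedges_append, List.mem_append] at he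
        rcases he with he | he
        · exact ⟨Or.inl (hWbh e he).1, (hWbh e he).2⟩
        · exact ⟨Or.inl (hWa'h e he).1, (hWa'h e he).2⟩
      have hm : TR (c.sl A β) τ (q j') (q z₁) ≤ cost τ Wb' + cost τ Wc := by
        rw [← cost_append]
        refine TR_le hτ ha _ fun e he => ?_
        rw [wedges_append, List.mem_append] at he
        rcases he with he | he
        · exact hWb'l e he
        · exact g5 e he
      refine ⟨j, zl, (j, j') :: Lp, (j', z₁) :: Lm, Wa, Wd, hj, g2, ?_, ?_, hWal, g6, ?_, ?_⟩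
      · intro p hp
        rw [List.mem_cons] at hp
        rcases hp with rfl | hp
        · exact ⟨hj, hj'⟩
        · exact g3 p hp
      · intro p hp
        rw [List.mem_cons] at hp
        rcases hp with rfl | hp
        · exact ⟨hj', g1⟩
        · exact g4 p hp
      · rw [List.map_cons, List.map_cons, List.sum_cons, List.sum_cons, hcost, hcost2]
        linarith
      · intro i
        have := g8 i
        rw [cn_cons, cn_cons]
        simp only
        omega
    · -- no return
      push Not at hret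
      refine ⟨j, j, [], [], Wa, Wb.append W2, hj, hj, by simp, by simp, hWal, ?_, ?_, fun i => rfl⟩
      · intro e he
        rw [wedges_append, List.mem_append] at he
        rcases he with he | he
        · exact hWbh e he
        · refine ⟨hW2S e he, mem_high hS (hW2S e he) ?_⟩
          obtain ⟨h1, h2⟩ := wedges_support W2 he
          have h3 := hret _ h1
          have h4 := hret _ h2
          exact ⟨h3.le, h4.le, Or.inl h3⟩
      · rw [List.map_nil, List.sum_nil, List.map_nil, List.sum_nil, cost_append, hcost]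
        linarith

/-- **THE EXACT UNCROSSING**, abstract form. -/
theorem unc_of (hτ : Bd a b τ) (ha : 0 < a) (hS : S ⊆ c.sl A B) (hA : A ≤ α) (hB : β ≤ B) (hαβ : α + c.M < β)
    {x y s t : V} (hx : c.tm x ≤ α) (hy : β ≤ c.tm y) (hs : c.tm s = α) (ht : c.tm t = β)
    (nP : Nonempty (WK S x y)) (nQ : Nonempty (WK (c.sl α β) s t))
    (hmeet : ∀ (v u : V) (R : grid.Walk v u) (Q : grid.Walk s t), (∀ z ∈ Q.support, α ≤ c.tm z ∧ c.tm z ≤ β) →
      (∀ z ∈ R.support, z = x ∨ ∃ e ∈ S, z = e.1 ∨ z = e.1 + dir e.2) →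
      c.tm v ≤ α → β ≤ c.tm u → (∀ z ∈ R.support, (c.tm z ≤ α → z = v) ∧ (β ≤ c.tm z → z = u)) →
      ∃ z ∈ R.support, z ∈ Q.support) :
    TR (c.sl A β) τ x t + TR ((S ∪ c.sl α β) ∩ c.sl α B) τ s y ≤ TR S τ x y + TR (c.sl α β) τ s t ∧
      Nonempty (WK ((S ∪ c.sl α β) ∩ c.sl α B) s y) := by
  obtain ⟨P, -, hP, cP⟩ := TR_min hτ ha nP
  obtain ⟨Q, -, hQ, cQ⟩ := TR_min hτ ha nQ
  have hQt := c.tm_mem_sl Q hQ ⟨hs.ge, by
    have := c.M_pos
    omega⟩
  obtain ⟨l, q, w, q0, ql, hqs, hsum, hW⟩ := path_idx τ Q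
  have hSm : c.sl α β ⊆ c.sl A β := fun e he => ⟨hA.trans he.1, he.2.1, he.2.2.1, hA.trans_lt he.2.2.2⟩
  have hSp : c.sl α β ⊆ (S ∪ c.sl α β) ∩ c.sl α B :=
    fun e he => ⟨Or.inr he, he.1, he.2.1.trans hB, he.2.2.1.trans_le hB, he.2.2.2⟩
  -- the vertices of a walk of `S`
  have hsup : ∀ (x' y' : V) (P' : grid.Walk x' y'), (∀ e ∈ wedges P', e ∈ S) → ∀ z ∈ P'.support,
      z = x' ∨ ∃ e ∈ S, z = e.1 ∨ z = e.1 + dir e.2 := by
    intro x' y' P' hP'
    exact support_of_wedges (fun z => z = x' ∨ ∃ e ∈ S, z = e.1 ∨ z = e.1 + dir e.2) P' (Or.inl rfl) fun e he =>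
      ⟨Or.inr ⟨e, hP' e he, Or.inl rfl⟩, Or.inr ⟨e, hP' e he, Or.inr rfl⟩⟩
  obtain ⟨z₁, zl, Lp, Lm, Wa, Wb, g1, g2, g3, g4, g5, g6, g7, g8⟩ := dec hτ ha.le hS hαβ
    (Qs := fun z => z ∈ Q.support) (T := fun z => z = x ∨ ∃ e ∈ S, z = e.1 ∨ z = e.1 + dir e.2) hqs (fun z hz => hQt z hz)
    (fun v u R h1 h2 h3 h4 => hmeet v u R Q hQt h1 h2 h3 h4) (P.length + 1) x y P (Nat.lt_succ_self _) hP
    (hsup x y P hP) hx hy
  -- the two pseudo metrics
  have hne : ∀ (S' : Set Edge), c.sl α β ⊆ S' → ∀ i j : ℕ, Nonempty (WK S' (q i) (q j)) := by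
    intro S' hS'
    have h0 : ∀ i : ℕ, ∃ W : grid.Walk (q 0) (q i), ∀ e ∈ wedges W, e ∈ S' := by
      intro i
      induction i with
      | zero => exact ⟨.nil, fun e he => by simp [wedges] at he⟩
      | succ i ih =>
        obtain ⟨W, hW'⟩ := ih
        obtain ⟨W', -, h2⟩ := hW i
        refine ⟨W.append W', fun e he => ?_⟩
        rw [wedges_append, List.mem_append] at he
        rcases he with he | he
        · exact hW' e he
        · exact hS' (hQ e (h2 e he))
    intro i j
    obtain ⟨W, h1⟩ := h0 i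
    obtain ⟨W', h2⟩ := h0 j
    refine ⟨⟨W.reverse.append W', fun e he => ?_⟩⟩
    rw [wedges_append, List.mem_append, wedges_reverse, List.mem_reverse] at he
    rcases he with he | he
    · exact h1 e he
    · exact h2 e he
  have hpar : ∀ (S' : Set Edge), c.sl α β ⊆ S' → ∀ (i j : ℕ) (L : List (ℕ × ℕ)), i ≤ l → j ≤ l →
      (∀ p ∈ L, p.1 ≤ l ∧ p.2 ≤ l) → TR S' τ (q i) (q j) ≤ (L.map fun p => TR S' τ (q p.1) (q p.2)).sum +
        ∑ k ∈ odds l i j L, w k := by
    intro S' hS' i j L hi hj hL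
    refine parity (D := fun i j => TR S' τ (q i) (q j)) (fun i j => TR_nonneg hτ ha.le _ _ _) (fun i => ?_)
      (fun i j => TR_symm _ _ _ _) (fun i j k => TR_triangle hτ ha.le (hne S' hS' i j) (hne S' hS' j k) le_rfl le_rfl)
      (fun i => ?_) _ i j L hi hj hL le_rfl
    · have h := TR_le (S := S') hτ ha.le (.nil : grid.Walk (q i) (q i)) (fun e he => by simp [wedges] at he)
      simpa [cost, wedges] using h
    · obtain ⟨W, hW1, hW2⟩ := hW i
      rw [← hW1]
      exact TR_le hτ ha.le W fun e he => hS' (hQ e (hW2 e he))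
  have e1 := hpar _ hSp 0 zl Lp (Nat.zero_le _) g2 g3
  have e2 := hpar _ hSm l z₁ Lm le_rfl g1 g4
  -- the two sets of edges of the reference are complementary
  have hsplit : ∑ k ∈ odds l 0 zl Lp, w k + ∑ k ∈ odds l l z₁ Lm, w k = ∑ k ∈ Finset.range l, w k := by
    have h1 : odds l l z₁ Lm = (Finset.range l).filter fun i => ¬ ct 0 zl Lp i % 2 = 1 := by
      unfold odds
      refine Finset.filter_congr fun i hi => ?_
      rw [Finset.mem_range] at hi
      have h2 := g8 i
      have h3 : c1 i l = 1 := by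
        unfold c1
        rw [if_pos hi]
      have h4 : c1 i 0 = 0 := c1_zero (Nat.zero_le _)
      unfold ct
      rw [h3, h4]
      omega
    rw [h1]
    exact Finset.sum_filter_add_sum_filter_not _ _ _
  -- the two pieces
  have f1 : TR (c.sl A β) τ x t ≤ cost τ Wa + TR (c.sl A β) τ (q l) (q z₁) := by
    rw [TR_symm _ _ (q l) (q z₁), ql]
    have h := TR_triangle (S := c.sl A β) (S' := c.sl A β) (S'' := c.sl A β) (τ := τ) (x := x) (y := q z₁) (z := t) hτ ha.le
      ⟨⟨Wa, g5⟩⟩ (ql ▸ hne _ hSm z₁ l) le_rfl le_rfl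
    have h2 := TR_le hτ ha.le Wa g5
    linarith
  have f2 : TR ((S ∪ c.sl α β) ∩ c.sl α B) τ s y ≤ TR ((S ∪ c.sl α β) ∩ c.sl α B) τ (q 0) (q zl) + cost τ Wb := by
    rw [q0]
    have g6' : ∀ e ∈ wedges Wb, e ∈ (S ∪ c.sl α β) ∩ c.sl α B := fun e he => ⟨Or.inl (g6 e he).1, (g6 e he).2⟩
    have h := TR_triangle (S := (S ∪ c.sl α β) ∩ c.sl α B) (S' := (S ∪ c.sl α β) ∩ c.sl α B)
      (S'' := (S ∪ c.sl α β) ∩ c.sl α B) (τ := τ) (x := s) (y := q zl) (z := y) hτ ha.le
      (q0 ▸ hne _ hSp 0 zl) ⟨⟨Wb, g6'⟩⟩ le_rfl le_rfl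
    have h2 := TR_le hτ ha.le Wb g6'
    linarith
  refine ⟨?_, ?_⟩
  · rw [← cP, ← cQ, ← hsum, ← hsplit]
    linarith
  · obtain ⟨⟨W, hW'⟩⟩ : Nonempty (WK ((S ∪ c.sl α β) ∩ c.sl α B) s (q zl)) := q0 ▸ hne _ hSp 0 zl
    exact ⟨⟨W.append Wb, fun e he => by
      rw [wedges_append, List.mem_append] at he
      rcases he with he | he
      · exact hW' e he
      · exact ⟨Or.inl (g6 e he).1, (g6 e he).2⟩⟩⟩

end Pool.Agent.W_1b8d5d_h14
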