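import Pool.Agent.W_1b8d5d_h14.UncB14

/-!
MP_1b8d5d_pr, Track P, D4 (proofs row 646, section 2), exact uncrossing. Part 3: the crossing of a strip from the rays
(`meet_strip`), the exact uncrossing on the block grid with the positions near the two levels of the reference (`unc14`).
-/

set_option autoImplicit false

namespace Pool.Agent.W_1b8d5d_h14

open MeasureTheory Set
open Pool.Agent.W_1b8d5d_h85 Pool.Agent.W_1b8d5d_p

variable {a b : ℝ} {τ : Env}

theorem row_le (c : Co) {u v : V} (huv : u.2 = v.2) (h : c.tm u ≤ c.tm v) : u.1 ≤ v.1 := by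
  have hp := c.hp
  unfold Co.tm at h
  rw [huv] at h
  by_contra hcon
  push Not at hcon
  have := mul_lt_mul_of_pos_left hcon (by linarith : (0 : ℤ) < c.p)
  linarith

/-- A walk which crosses the strip meets the reference, if its ends are on different sides. -/
theorem meet_strip (c : Co) {α β : ℤ} {v u s t : V} (hαβ : α < β) (R : grid.Walk v u) (Q : grid.Walk s t)
    (hQ : ∀ z ∈ Q.support, α ≤ c.tm z ∧ c.tm z ≤ β) (hs : c.tm s = α) (ht : c.tm t = β) (hv : c.tm v ≤ α)
    (hu : β ≤ c.tm u) (hR : ∀ z ∈ R.support, (c.tm z ≤ α → z = v) ∧ (β ≤ c.tm z → z = u))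
    (h : (v.2 < s.2 ∧ t.2 < u.2) ∨ (s.2 < v.2 ∧ u.2 < t.2)) : ∃ z ∈ R.support, z ∈ Q.support := by
  rcases h with ⟨h1, h2⟩ | ⟨h1, h2⟩
  · exact cross_rays R Q h1 h2 (fun z hz h => row_le c h.symm (hv.trans (hQ z hz).1))
      (fun z hz h => row_le c h ((hQ z hz).2.trans hu))
      (fun z hz h => row_le c h.symm (by
        by_contra hcon
        push Not at hcon
        have h3 := (hR z hz).1 (by omega)
        rw [h3] at h
        omega))
      (fun z hz h => row_le c h (by
        by_contra hcon
        push Not at hcon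
        have h3 := (hR z hz).2 (by omega)
        rw [h3] at h
        omega))
      (fun h => row_le c h (by omega)) (fun h => row_le c h.symm (by omega))
  · obtain ⟨z, hz, hz'⟩ := cross_rays Q R h1 h2
      (fun z hz h => row_le c h.symm (by
        by_contra hcon
        push Not at hcon
        have h3 := (hR z hz).1 (by omega)
        rw [h3] at h
        omega))
      (fun z hz h => row_le c h (by
        by_contra hcon
        push Not at hcon
        have h3 := (hR z hz).2 (by omega)
        rw [h3] at h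
        omega))
      (fun z hz h => row_le c h.symm (hv.trans (hQ z hz).1))
      (fun z hz h => row_le c h ((hQ z hz).2.trans hu))
      (fun h => row_le c h (by omega)) (fun h => row_le c h.symm (by omega))
    exact ⟨z, hz', hz⟩

/-- The ends of a crossing are close to the strip. -/
theorem near_strip (c : Co) {α β : ℤ} {v u : V} (hαβ : α < β) (R : grid.Walk v u) (hv : c.tm v ≤ α)
    (hu : β ≤ c.tm u) (hR : ∀ z ∈ R.support, (c.tm z ≤ α → z = v) ∧ (β ≤ c.tm z → z = u)) :
    α - c.M < c.tm v ∧ c.tm u < β + c.M := by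
  constructor
  · cases R with
    | nil => omega
    | @cons _ w _ h R' =>
      have h1 := Pool.Agent.W_1b8d5d_p.tm_adj c h
      have h2 := hR w (by
        rw [SimpleGraph.Walk.support_cons]
        exact List.mem_cons_of_mem _ R'.start_mem_support)
      have h3 : α < c.tm w := by
        by_contra hcon
        push Not at hcon
        exact h.ne (h2.1 hcon).symm
      omega
  · obtain ⟨R', hR'⟩ : ∃ R' : grid.Walk u v, R' = R.reverse := ⟨_, rfl⟩
    have hsup : ∀ z ∈ R'.support, z ∈ R.support := by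
      intro z hz
      rwa [hR', SimpleGraph.Walk.support_reverse, List.mem_reverse] at hz
    clear hR'
    cases R' with
    | nil => omega
    | @cons _ w _ h R'' =>
      have h1 := Pool.Agent.W_1b8d5d_p.tm_adj c h
      have h2 := hR w (hsup w (by
        rw [SimpleGraph.Walk.support_cons]
        exact List.mem_cons_of_mem _ R''.start_mem_support))
      have h3 : c.tm w < β := by
        by_contra hcon
        push Not at hcon
        exact h.ne (h2.2 hcon).symm
      omega

/-- The lateral margin. -/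
def m14 (c : Co) : ℤ := c.M * |c.s|

theorem m14_nonneg (c : Co) : 0 ≤ m14 c := by
  have := c.M_pos
  unfold m14
  positivity

/-- From positions to rows. -/
theorem row_lt (c : Co) {z w : V} (h1 : |c.tm z - c.tm w| ≤ c.M) (h2 : m14 c < c.ps w - c.ps z) : z.2 < w.2 := by
  have hp := c.hp
  rw [c.snd_eq z, c.snd_eq w]
  have h3 : |(c.tm z - c.tm w) * c.s| ≤ m14 c := by
    rw [abs_mul]
    exact mul_le_mul_of_nonneg_right h1 (abs_nonneg _)
  have h4 := (abs_le.1 h3).2
  have h5 : c.ps w - c.ps z ≤ (c.ps w - c.ps z) * c.p :=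
    le_mul_of_one_le_right (by have := m14_nonneg c; omega) hp
  nlinarith

/-- **THE EXACT UNCROSSING.** `S` = a set of edges of the slab `[A, B]`; the reference `(A', i) → (B', j)`. Near the two levels of
the reference the edges of `S` are on different sides of the reference. -/
theorem unc14 {c : Co} (hτ : Bd a b τ) (ha : 0 < a) {S : Set Edge} {A B A' B' : ℤ} (hS : S ⊆ c.slab A B) (hA : A ≤ A')
    (hAB : A' < B') (hB : B' ≤ B) {x y : V} (hx : c.tm x ≤ c.L * A') (hy : c.L * B' ≤ c.tm y) {i j : ℤ}
    (nP : Nonempty (WK S x y)) {sg : ℤ} (hsg : sg = 1 ∨ sg = -1)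
    (hlow : ∀ z : V, (z = x ∨ ∃ e ∈ S, z = e.1 ∨ z = e.1 + dir e.2) → c.L * A' - c.M < c.tm z → c.tm z ≤ c.L * A' →
      m14 c < sg * (i - c.ps z))
    (hhigh : ∀ z : V, (z = x ∨ ∃ e ∈ S, z = e.1 ∨ z = e.1 + dir e.2) → c.L * B' ≤ c.tm z → c.tm z < c.L * B' + c.M →
      m14 c < sg * (c.ps z - j)) :
    TR (c.slab A B') τ x (c.vt (B', j)) + TR ((S ∪ c.slab A' B') ∩ c.slab A' B) τ (c.vt (A', i)) y ≤
      TR S τ x y + TR (c.slab A' B') τ (c.vt (A', i)) (c.vt (B', j)) ∧
      Nonempty (WK ((S ∪ c.slab A' B') ∩ c.slab A' B) (c.vt (A', i)) y) := by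
  have hL := c.L_pos
  have hLM := c.L_eq
  have hM := c.M_pos
  have hmul : ∀ s t : ℤ, s ≤ t → c.L * s ≤ c.L * t := fun s t h => mul_le_mul_of_nonneg_left h (by omega)
  have h1 : c.L * (A' + 1) ≤ c.L * B' := hmul _ _ (by omega)
  have h2 : c.L * (A' + 1) = c.L * A' + c.L := by ring
  refine unc_of (S := S) (A := c.L * A) (B := c.L * B) (α := c.L * A') (β := c.L * B') hτ ha hS (hmul _ _ hA) (hmul _ _ hB)
    (by omega) hx hy (by rw [Co.tm_vt]) (by rw [Co.tm_vt]) nP ?_ ?_
  · exact Co.slab_ne hAB (by
      rw [Co.tm_vt]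
      exact ⟨le_rfl, hmul _ _ hAB.le⟩) (by
      rw [Co.tm_vt]
      exact ⟨hmul _ _ hAB.le, le_rfl⟩)
  · intro v u R Q hQ hR hv hu hRvu
    have h3 := near_strip c (by omega) R hv hu hRvu
    have h4 := hlow v (hR v R.start_mem_support) h3.1 hv
    have h5 := hhigh u (hR u R.end_mem_support) hu h3.2
    refine meet_strip c (by omega) R Q hQ (by rw [Co.tm_vt]) (by rw [Co.tm_vt]) hv hu hRvu ?_
    have e1 : c.tm (c.vt (A', i)) = c.L * A' := by rw [Co.tm_vt]
    have e2 : c.ps (c.vt (A', i)) = i := by rw [Co.ps_vt]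
    have e3 : c.tm (c.vt (B', j)) = c.L * B' := by rw [Co.tm_vt]
    have e4 : c.ps (c.vt (B', j)) = j := by rw [Co.ps_vt]
    have a1 : |c.tm v - c.tm (c.vt (A', i))| ≤ c.M := by
      rw [e1, abs_le]
      constructor <;> omega
    have a2 : |c.tm u - c.tm (c.vt (B', j))| ≤ c.M := by
      rw [e3, abs_le]
      constructor <;> omega
    rcases hsg with h | h
    · rw [h] at h4 h5
      left
      constructor
      · exact row_lt c a1 (by rw [e2]; linarith)
      · refine row_lt c (by rw [abs_sub_comm]; exact a2) (by rw [e4]; linarith)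
    · rw [h] at h4 h5
      right
      constructor
      · refine row_lt c (by rw [abs_sub_comm]; exact a1) (by rw [e2]; linarith)
      · exact row_lt c a2 (by rw [e4]; linarith)

end Pool.Agent.W_1b8d5d_h14
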